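import Mathlib

/-!
Conditional expectations on the discrete cube with respect to a weight `ρ`,
given the coordinates in a set `T`.
-/

set_option autoImplicit false

namespace Pool.Agent.Helper69.KK

open Finset

variable {n : ℕ}

/-- `ρ`-mass of the class of `x` when the coordinates in `T` are revealed. -/
noncomputable def M (ρ : Finset (Fin n) → ℝ) (T x : Finset (Fin n)) : ℝ :=
  ∑ y, if y ∩ T = x ∩ T then ρ y else 0

/-- conditional expectation of `w` given the coordinates in `T`. -/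
noncomputable def ce (ρ : Finset (Fin n) → ℝ) (T : Finset (Fin n))
    (w : Finset (Fin n) → ℝ) (x : Finset (Fin n)) : ℝ :=
  (∑ y, if y ∩ T = x ∩ T then ρ y * w y else 0) / M ρ T x

/-- squared `L²(ρ)` norm. -/
noncomputable def nsq (ρ : Finset (Fin n) → ℝ) (w : Finset (Fin n) → ℝ) : ℝ :=
  ∑ x, ρ x * w x ^ 2

lemma M_nonneg {ρ : Finset (Fin n) → ℝ} (hρ : ∀ x, 0 ≤ ρ x) (T x : Finset (Fin n)) :
    0 ≤ M ρ T x := by
  unfold M
  apply Finset.sum_nonneg
  intro y _
  split_ifs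
  · exact hρ y
  · exact le_rfl

lemma le_M {ρ : Finset (Fin n) → ℝ} (hρ : ∀ x, 0 ≤ ρ x) (T x : Finset (Fin n)) :
    ρ x ≤ M ρ T x := by
  unfold M
  have h : (if x ∩ T = x ∩ T then ρ x else 0) ≤ ∑ y, if y ∩ T = x ∩ T then ρ y else 0 := by
    apply Finset.single_le_sum (f := fun y => if y ∩ T = x ∩ T then ρ y else 0)
    · intro y _
      split_ifs
      · exact hρ y
      · exact le_rfl
    · exact Finset.mem_univ x
  simpa using h

lemma M_congr (ρ : Finset (Fin n) → ℝ) {T x y : Finset (Fin n)} (h : x ∩ T = y ∩ T) :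
    M ρ T x = M ρ T y := by
  unfold M
  rw [h]

lemma ce_congr (ρ : Finset (Fin n) → ℝ) {T x y : Finset (Fin n)} (w : Finset (Fin n) → ℝ)
    (h : x ∩ T = y ∩ T) : ce ρ T w x = ce ρ T w y := by
  unfold ce
  rw [M_congr ρ h, h]

lemma eq_zero_of_M_eq_zero {ρ : Finset (Fin n) → ℝ} (hρ : ∀ x, 0 ≤ ρ x)
    {T x : Finset (Fin n)} (h : M ρ T x = 0) : ρ x = 0 :=
  le_antisymm (h ▸ le_M hρ T x) (hρ x)

/-- defining property of conditional expectation. -/
lemma sum_mul_ce {ρ : Finset (Fin n) → ℝ} (hρ : ∀ x, 0 ≤ ρ x) (T : Finset (Fin n))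
    (u w : Finset (Fin n) → ℝ) (hu : ∀ x y, x ∩ T = y ∩ T → u x = u y) :
    ∑ x, ρ x * (u x * ce ρ T w x) = ∑ x, ρ x * (u x * w x) := by
  have h1 : ∀ x, ρ x * (u x * ce ρ T w x) =
      ∑ y, if x ∩ T = y ∩ T then (u y * ρ y * w y / M ρ T y) * ρ x else 0 := by
    intro x
    unfold ce
    rw [mul_div_assoc', mul_div_assoc', Finset.mul_sum, Finset.mul_sum, Finset.sum_div]
    apply Finset.sum_congr rfl
    intro y _
    by_cases h : y ∩ T = x ∩ T
    · rw [if_pos h, if_pos h.symm, hu x y h.symm, M_congr ρ h]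
      ring
    · rw [if_neg h, if_neg (fun h' => h h'.symm)]
      simp
  rw [Finset.sum_congr rfl (fun x _ => h1 x), Finset.sum_comm]
  apply Finset.sum_congr rfl
  intro y _
  have h2 : (∑ x, if x ∩ T = y ∩ T then (u y * ρ y * w y / M ρ T y) * ρ x else 0)
      = (u y * ρ y * w y / M ρ T y) * M ρ T y := by
    unfold M
    rw [Finset.mul_sum]
    apply Finset.sum_congr rfl
    intro x _
    split_ifs <;> simp
  rw [h2]
  by_cases hM : M ρ T y = 0
  · rw [eq_zero_of_M_eq_zero hρ hM]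
    simp
  · field_simp

/-- tower property. -/
lemma ce_ce {ρ : Finset (Fin n) → ℝ} (hρ : ∀ x, 0 ≤ ρ x) {T T' : Finset (Fin n)}
    (hT : T ⊆ T') (w : Finset (Fin n) → ℝ) (x : Finset (Fin n)) :
    ce ρ T (ce ρ T' w) x = ce ρ T w x := by
  unfold ce
  congr 1
  have key := sum_mul_ce hρ T' (fun y => if y ∩ T = x ∩ T then (1:ℝ) else 0) w ?_
  · have e1 : ∀ (v : Finset (Fin n) → ℝ), (∑ y, if y ∩ T = x ∩ T then ρ y * v y else 0)
        = ∑ y, ρ y * ((if y ∩ T = x ∩ T then (1:ℝ) else 0) * v y) := by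
      intro v
      apply Finset.sum_congr rfl
      intro y _
      split_ifs <;> simp
    rw [e1 w, ← key]
    exact e1 _
  · intro y z hyz
    have : y ∩ T = z ∩ T := by
      have h1 : y ∩ T = (y ∩ T') ∩ T := by
        rw [Finset.inter_assoc, Finset.inter_eq_right.mpr hT]
      have h2 : z ∩ T = (z ∩ T') ∩ T := by
        rw [Finset.inter_assoc, Finset.inter_eq_right.mpr hT]
      rw [h1, h2, hyz]
    simp only [this]

lemma ce_ce_fun {ρ : Finset (Fin n) → ℝ} (hρ : ∀ x, 0 ≤ ρ x) {T T' : Finset (Fin n)}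
    (hT : T ⊆ T') (w : Finset (Fin n) → ℝ) :
    ce ρ T (ce ρ T' w) = ce ρ T w := funext (ce_ce hρ hT w)

lemma ce_nonneg {ρ : Finset (Fin n) → ℝ} (hρ : ∀ x, 0 ≤ ρ x) (T : Finset (Fin n))
    {w : Finset (Fin n) → ℝ} (hw : ∀ x, 0 ≤ w x) (x : Finset (Fin n)) : 0 ≤ ce ρ T w x := by
  unfold ce
  apply div_nonneg _ (M_nonneg hρ T x)
  apply Finset.sum_nonneg
  intro y _
  split_ifs
  · exact mul_nonneg (hρ y) (hw y)
  · exact le_rfl

lemma ce_add (ρ : Finset (Fin n) → ℝ) (T : Finset (Fin n))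
    (u w : Finset (Fin n) → ℝ) (x : Finset (Fin n)) :
    ce ρ T (fun y => u y + w y) x = ce ρ T u x + ce ρ T w x := by
  unfold ce
  rw [← add_div, ← Finset.sum_add_distrib]
  congr 1
  apply Finset.sum_congr rfl
  intro y _
  split_ifs
  · ring
  · simp

/-- preservation of the mean. -/
lemma sum_ce {ρ : Finset (Fin n) → ℝ} (hρ : ∀ x, 0 ≤ ρ x) (T : Finset (Fin n))
    (w : Finset (Fin n) → ℝ) : ∑ x, ρ x * ce ρ T w x = ∑ x, ρ x * w x := by
  have := sum_mul_ce hρ T (fun _ => 1) w (fun _ _ _ => rfl)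
  simpa using this

lemma nsq_nonneg {ρ : Finset (Fin n) → ℝ} (hρ : ∀ x, 0 ≤ ρ x) (w : Finset (Fin n) → ℝ) :
    0 ≤ nsq ρ w := Finset.sum_nonneg fun x _ => mul_nonneg (hρ x) (sq_nonneg _)

/-- `‖e w‖² = ⟨w, e w⟩`. -/
lemma nsq_ce_eq {ρ : Finset (Fin n) → ℝ} (hρ : ∀ x, 0 ≤ ρ x) (T : Finset (Fin n))
    (w : Finset (Fin n) → ℝ) :
    nsq ρ (ce ρ T w) = ∑ x, ρ x * (w x * ce ρ T w x) := by
  have := sum_mul_ce hρ T (ce ρ T w) w (fun x y h => ce_congr ρ w h)
  unfold nsq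
  calc ∑ x, ρ x * ce ρ T w x ^ 2 = ∑ x, ρ x * (ce ρ T w x * ce ρ T w x) := by
        apply Finset.sum_congr rfl; intro x _; ring
    _ = ∑ x, ρ x * (ce ρ T w x * w x) := this
    _ = _ := by apply Finset.sum_congr rfl; intro x _; ring

/-- Pythagoras. -/
lemma nsq_sub_nsq_ce {ρ : Finset (Fin n) → ℝ} (hρ : ∀ x, 0 ≤ ρ x) (T : Finset (Fin n))
    (w : Finset (Fin n) → ℝ) :
    nsq ρ w - nsq ρ (ce ρ T w) = ∑ x, ρ x * (w x - ce ρ T w x) ^ 2 := by
  have h := nsq_ce_eq hρ T w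
  have e : ∑ x, ρ x * (w x - ce ρ T w x) ^ 2
      = nsq ρ w - 2 * (∑ x, ρ x * (w x * ce ρ T w x)) + nsq ρ (ce ρ T w) := by
    unfold nsq
    rw [Finset.mul_sum, ← Finset.sum_sub_distrib, ← Finset.sum_add_distrib]
    apply Finset.sum_congr rfl
    intro x _
    ring
  rw [e, ← h]
  ring

/-- contraction. -/
lemma nsq_ce_le {ρ : Finset (Fin n) → ℝ} (hρ : ∀ x, 0 ≤ ρ x) (T : Finset (Fin n))
    (w : Finset (Fin n) → ℝ) : nsq ρ (ce ρ T w) ≤ nsq ρ w := by
  have h := nsq_sub_nsq_ce hρ T w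
  have h2 : 0 ≤ ∑ x, ρ x * (w x - ce ρ T w x) ^ 2 :=
    Finset.sum_nonneg fun x _ => mul_nonneg (hρ x) (sq_nonneg _)
  linarith

lemma nsq_ce_mono {ρ : Finset (Fin n) → ℝ} (hρ : ∀ x, 0 ≤ ρ x) {T T' : Finset (Fin n)}
    (hT : T ⊆ T') (w : Finset (Fin n) → ℝ) : nsq ρ (ce ρ T w) ≤ nsq ρ (ce ρ T' w) := by
  rw [← ce_ce_fun hρ hT w]
  exact nsq_ce_le hρ T _

lemma nsq_add_le {ρ : Finset (Fin n) → ℝ} (hρ : ∀ x, 0 ≤ ρ x) (u w : Finset (Fin n) → ℝ) :
    nsq ρ (fun x => u x + w x) ≤ 2 * nsq ρ u + 2 * nsq ρ w := by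
  unfold nsq
  rw [Finset.mul_sum, Finset.mul_sum, ← Finset.sum_add_distrib]
  apply Finset.sum_le_sum
  intro x _
  have : ρ x * (u x - w x) ^ 2 ≥ 0 := mul_nonneg (hρ x) (sq_nonneg _)
  nlinarith

lemma ce_congr_ae {ρ : Finset (Fin n) → ℝ} (T : Finset (Fin n))
    {u w : Finset (Fin n) → ℝ} (h : ∀ x, ρ x ≠ 0 → u x = w x) : ce ρ T u = ce ρ T w := by
  funext x
  unfold ce
  congr 1
  apply Finset.sum_congr rfl
  intro y _
  by_cases hy : ρ y = 0
  · rw [hy]; simp
  · rw [h y hy]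

/-! ### The averaging operator in direction `i` -/

/-- average out coordinate `i`. -/
noncomputable def E (ρ : Finset (Fin n) → ℝ) (i : Fin n) (w : Finset (Fin n) → ℝ) :
    Finset (Fin n) → ℝ := ce ρ ({i}ᶜ) w

lemma inter_compl_singleton_iff (i : Fin n) (x y : Finset (Fin n)) :
    y ∩ {i}ᶜ = x ∩ {i}ᶜ ↔ y = x ∨ y = symmDiff x {i} := by
  constructor
  · intro h
    have hj : ∀ j, j ≠ i → (j ∈ y ↔ j ∈ x) := by
      intro j hj
      have := Finset.ext_iff.mp h j
      simpa [hj] using this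
    by_cases hi : (i ∈ y ↔ i ∈ x)
    · left
      ext j
      by_cases hji : j = i
      · rw [hji]; exact hi
      · exact hj j hji
    · right
      ext j
      by_cases hji : j = i
      · subst hji
        rw [Finset.mem_symmDiff]
        simp only [Finset.mem_singleton, not_true_eq_false, and_false, true_and, false_or]
        tauto
      · rw [Finset.mem_symmDiff]
        simp only [Finset.mem_singleton, hji, not_false_eq_true, and_true, false_and, or_false]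
        exact hj j hji
  · rintro (h | h)
    · rw [h]
    · rw [h]
      ext j
      by_cases hji : j = i
      · simp [hji]
      · simp [Finset.mem_symmDiff, hji]

lemma symmDiff_singleton_ne (i : Fin n) (x : Finset (Fin n)) : symmDiff x {i} ≠ x := by
  intro h
  have := Finset.ext_iff.mp h i
  rw [Finset.mem_symmDiff] at this
  simp only [Finset.mem_singleton, not_true_eq_false, and_false, true_and, false_or] at this
  tauto

lemma symmDiff_symmDiff_singleton (i : Fin n) (x : Finset (Fin n)) :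
    symmDiff (symmDiff x {i}) {i} = x := symmDiff_symmDiff_cancel_right {i} x

/-- sum over a direction-`i` class. -/
lemma sum_class (i : Fin n) (x : Finset (Fin n)) (f : Finset (Fin n) → ℝ) :
    (∑ y, if y ∩ {i}ᶜ = x ∩ {i}ᶜ then f y else 0) = f x + f (symmDiff x {i}) := by
  rw [← Finset.sum_filter]
  have : Finset.univ.filter (fun y : Finset (Fin n) => y ∩ {i}ᶜ = x ∩ {i}ᶜ)
      = {x, symmDiff x {i}} := by
    ext y
    simp only [Finset.mem_filter, Finset.mem_univ, true_and, Finset.mem_insert,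
      Finset.mem_singleton]
    exact inter_compl_singleton_iff i x y
  rw [this, Finset.sum_pair (symmDiff_singleton_ne i x).symm]

lemma M_single (ρ : Finset (Fin n) → ℝ) (i : Fin n) (x : Finset (Fin n)) :
    M ρ ({i}ᶜ) x = ρ x + ρ (symmDiff x {i}) := sum_class i x ρ

lemma E_apply (ρ : Finset (Fin n) → ℝ) (i : Fin n) (w : Finset (Fin n) → ℝ)
    (x : Finset (Fin n)) :
    E ρ i w x = (ρ x * w x + ρ (symmDiff x {i}) * w (symmDiff x {i}))
      / (ρ x + ρ (symmDiff x {i})) := by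
  unfold E ce
  rw [M_single, sum_class i x (fun y => ρ y * w y)]

/-- reindexing by the flip. -/
lemma sum_flip (i : Fin n) (f : Finset (Fin n) → ℝ) :
    ∑ x, f (symmDiff x {i}) = ∑ x, f x := by
  apply Finset.sum_bijective (fun x : Finset (Fin n) => symmDiff x {i})
  · exact Function.Involutive.bijective (fun x => symmDiff_symmDiff_singleton i x)
  · intro x; simp
  · intro x _; rfl

/-- variance in direction `i`. -/
lemma nsq_sub_nsq_E {ρ : Finset (Fin n) → ℝ} (hρ : ∀ x, 0 ≤ ρ x) (i : Fin n)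
    (w : Finset (Fin n) → ℝ) :
    nsq ρ w - nsq ρ (E ρ i w) =
      (1/2) * ∑ x, ρ x * ρ (symmDiff x {i}) / (ρ x + ρ (symmDiff x {i}))
        * (w x - w (symmDiff x {i})) ^ 2 := by
  have h0 : nsq ρ w - nsq ρ (E ρ i w) = ∑ x, ρ x * (w x - E ρ i w x) ^ 2 :=
    nsq_sub_nsq_ce hρ _ w
  have h1 : ∑ x, ρ x * (w x - E ρ i w x) ^ 2
      = ∑ x, ρ (symmDiff x {i}) * (w (symmDiff x {i}) - E ρ i w (symmDiff x {i})) ^ 2 :=
    (sum_flip i (fun x => ρ x * (w x - E ρ i w x) ^ 2)).symm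
  have h2 : ∑ x, ρ x * (w x - E ρ i w x) ^ 2 =
      (1/2) * ∑ x, (ρ x * (w x - E ρ i w x) ^ 2
        + ρ (symmDiff x {i}) * (w (symmDiff x {i}) - E ρ i w (symmDiff x {i})) ^ 2) := by
    rw [Finset.sum_add_distrib, ← h1]
    ring
  rw [h0, h2]
  congr 1
  apply Finset.sum_congr rfl
  intro x _
  rw [E_apply, E_apply, symmDiff_symmDiff_singleton]
  set p := ρ x
  set q := ρ (symmDiff x {i})
  set a := w x
  set b := w (symmDiff x {i})
  have hp : 0 ≤ p := hρ x
  have hq : 0 ≤ q := hρ _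
  by_cases hpq : p + q = 0
  · have hp0 : p = 0 := by linarith
    have hq0 : q = 0 := by linarith
    rw [hp0, hq0]; simp
  · have hqp : q + p ≠ 0 := by rwa [add_comm]
    field_simp
    ring

end Pool.Agent.Helper69.KK
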