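import Pool.Agent.Helper69.KK.Greedy

/-!
The core estimate.
-/

set_option autoImplicit false

namespace Pool.Agent.Helper69.KK

open Finset

variable {n : ℕ}

/-- indicator of the part of the boundary of `A` in direction `k`. -/
noncomputable def ind (A : Finset (Finset (Fin n))) (k : Fin n) (x : Finset (Fin n)) : ℝ :=
  if x ∈ A ∧ symmDiff x {k} ∉ A then 1 else 0

/-- `ρ`-mass of the boundary in direction `k`. -/
noncomputable def bb (A : Finset (Finset (Fin n))) (ρ : Finset (Fin n) → ℝ) (k : Fin n) : ℝ :=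
  ∑ x, ρ x * ind A k x

/-- interior part of `theta`. -/
noncomputable def thi (A : Finset (Finset (Fin n))) (ρ : Finset (Fin n) → ℝ) (k : Fin n)
    (x : Finset (Fin n)) : ℝ :=
  if x ∈ A ∧ symmDiff x {k} ∉ A then 0 else theta ρ k x

lemma ind_nonneg (A : Finset (Finset (Fin n))) (k : Fin n) (x : Finset (Fin n)) :
    0 ≤ ind A k x := by unfold ind; split_ifs <;> norm_num

lemma ind_sq (A : Finset (Finset (Fin n))) (k : Fin n) (x : Finset (Fin n)) :
    ind A k x ^ 2 = ind A k x := by unfold ind; split_ifs <;> norm_num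

lemma bb_nonneg (A : Finset (Finset (Fin n))) {ρ : Finset (Fin n) → ℝ} (hρ : ∀ x, 0 ≤ ρ x)
    (k : Fin n) : 0 ≤ bb A ρ k :=
  Finset.sum_nonneg (fun x _ => mul_nonneg (hρ x) (ind_nonneg A k x))

lemma nsq_ind (A : Finset (Finset (Fin n))) (ρ : Finset (Fin n) → ℝ) (k : Fin n) :
    nsq ρ (ind A k) = bb A ρ k := by
  unfold nsq bb
  exact Finset.sum_congr rfl (fun x _ => by rw [ind_sq])

lemma mem_of_flip_notMem {A : Finset (Finset (Fin n))}
    (hA : IsUpperSet (A : Set (Finset (Fin n)))) {k : Fin n} {x : Finset (Fin n)}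
    (h : x ∈ A ∧ symmDiff x {k} ∉ A) : k ∈ x := by
  by_contra hk
  apply h.2
  apply hA _ h.1
  intro j hj
  rw [Finset.mem_symmDiff]
  left
  refine ⟨hj, ?_⟩
  rw [Finset.mem_singleton]
  rintro rfl
  exact hk hj

lemma theta_eq {A : Finset (Finset (Fin n))}
    (hA : IsUpperSet (A : Set (Finset (Fin n)))) {ρ : Finset (Fin n) → ℝ}
    (hs : ∀ x, x ∉ A → ρ x = 0) (k : Fin n) (x : Finset (Fin n)) (hx : ρ x ≠ 0) :
    theta ρ k x = ind A k x + thi A ρ k x := by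
  unfold ind thi
  by_cases h : x ∈ A ∧ symmDiff x {k} ∉ A
  · rw [if_pos h, if_pos h, theta_apply, hs _ h.2]
    have hk := mem_of_flip_notMem hA h
    unfold chi
    rw [if_pos hk, sub_zero, add_zero, div_self hx]
    ring
  · rw [if_neg h, if_neg h]
    ring

lemma nsq_theta_eq {A : Finset (Finset (Fin n))}
    (hA : IsUpperSet (A : Set (Finset (Fin n)))) {ρ : Finset (Fin n) → ℝ}
    (hs : ∀ x, x ∉ A → ρ x = 0) (k : Fin n) :
    nsq ρ (theta ρ k) = bb A ρ k + nsq ρ (thi A ρ k) := by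
  rw [← nsq_ind]
  unfold nsq
  rw [← Finset.sum_add_distrib]
  apply Finset.sum_congr rfl
  intro x _
  by_cases hx : ρ x = 0
  · rw [hx]; simp
  · rw [theta_eq hA hs k x hx]
    unfold ind thi
    by_cases h : x ∈ A ∧ symmDiff x {k} ∉ A
    · simp [if_pos h]
    · simp [if_neg h]

/-- interior energy. -/
noncomputable def Ei (A : Finset (Finset (Fin n))) (ρ : Finset (Fin n) → ℝ) : ℝ :=
  ∑ k, nsq ρ (thi A ρ k)

lemma Etot_eq {A : Finset (Finset (Fin n))}
    (hA : IsUpperSet (A : Set (Finset (Fin n)))) {ρ : Finset (Fin n) → ℝ}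
    (hρ : ∀ x, 0 ≤ ρ x) (hs : ∀ x, x ∉ A → ρ x = 0) :
    Etot ρ = Ei A ρ + ∑ k, bb A ρ k := by
  unfold Etot Ei
  rw [← Finset.sum_add_distrib]
  apply Finset.sum_congr rfl
  intro k _
  rw [← nsq_theta hρ k, nsq_theta_eq hA hs k]
  ring

lemma Ei_nonneg (A : Finset (Finset (Fin n))) {ρ : Finset (Fin n) → ℝ}
    (hρ : ∀ x, 0 ≤ ρ x) : 0 ≤ Ei A ρ :=
  Finset.sum_nonneg (fun _ _ => nsq_nonneg hρ _)

/-- the linear coefficient. -/
noncomputable def cc (A : Finset (Finset (Fin n))) (κ : ℝ) (x : Finset (Fin n)) : ℝ :=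
  -(1 - 2 * κ) * ∑ k, ind A k x

lemma sum_cc (A : Finset (Finset (Fin n))) (κ : ℝ) (ρ : Finset (Fin n) → ℝ) :
    ∑ x, ρ x * cc A κ x = -(1 - 2 * κ) * ∑ k, bb A ρ k := by
  unfold cc bb
  rw [Finset.sum_comm, Finset.mul_sum]
  apply Finset.sum_congr rfl
  intro x _
  rw [← Finset.mul_sum]
  ring

lemma Psi_eq {A : Finset (Finset (Fin n))}
    (hA : IsUpperSet (A : Set (Finset (Fin n)))) (κ : ℝ) {ρ : Finset (Fin n) → ℝ}
    (hρ : ∀ x, 0 ≤ ρ x) (hs : ∀ x, x ∉ A → ρ x = 0) :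
    Psi (cc A κ) κ ρ = Ei A ρ + 2 * κ * ∑ k, bb A ρ k - κ * ∑ x, ρ x * Real.log (ρ x) := by
  unfold Psi
  rw [Etot_eq hA hρ hs, sum_cc]
  ring

lemma K_univ_eq {ρ : Finset (Fin n) → ℝ} (h1 : ∑ x, ρ x = 1) :
    K ρ univ = (n : ℝ) * Real.log 2 + ∑ x, ρ x * Real.log (ρ x) := by
  unfold K
  have : ∀ x, ρ x * Real.log (2 ^ (univ : Finset (Fin n)).card * M ρ univ x)
      = ρ x * ((n : ℝ) * Real.log 2) + ρ x * Real.log (ρ x) := by
    intro x
    rw [M_univ, Finset.card_univ, Fintype.card_fin]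
    by_cases hx : ρ x = 0
    · rw [hx]; simp
    · rw [Real.log_mul (by positivity) hx, Real.log_pow]
      ring
  rw [Finset.sum_congr rfl (fun x _ => this x), Finset.sum_add_distrib, ← Finset.sum_mul, h1,
    one_mul]

/-- the uniform probability on `A`. -/
noncomputable def UU (A : Finset (Finset (Fin n))) (x : Finset (Fin n)) : ℝ :=
  if x ∈ A then (A.card : ℝ)⁻¹ else 0

lemma UU_nonneg (A : Finset (Finset (Fin n))) (x : Finset (Fin n)) : 0 ≤ UU A x := by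
  unfold UU; split_ifs <;> positivity

lemma UU_mem {A : Finset (Finset (Fin n))} (hne : A.Nonempty) : UU A ∈ PM A := by
  have hc : (A.card : ℝ) ≠ 0 := by
    exact_mod_cast (Finset.card_pos.mpr hne).ne'
  refine ⟨UU_nonneg A, ?_, fun x hx => by unfold UU; rw [if_neg hx]⟩
  unfold UU
  rw [Finset.sum_ite_mem, Finset.univ_inter, Finset.sum_const, nsmul_eq_mul, mul_inv_cancel₀ hc]

lemma Ei_UU (A : Finset (Finset (Fin n))) : Ei A (UU A) = 0 := by
  unfold Ei nsq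
  apply Finset.sum_eq_zero
  intro k _
  apply Finset.sum_eq_zero
  intro x _
  by_cases hx : x ∈ A
  · by_cases hy : symmDiff x {k} ∈ A
    · unfold thi
      rw [if_neg (fun h => h.2 hy), theta_apply]
      unfold UU
      rw [if_pos hx, if_pos hy, sub_self]
      simp
    · unfold thi
      rw [if_pos ⟨hx, hy⟩]
      simp
  · unfold UU
    rw [if_neg hx, zero_mul]

lemma ent_UU {A : Finset (Finset (Fin n))} (hne : A.Nonempty) :
    ∑ x, UU A x * Real.log (UU A x) = - Real.log (A.card : ℝ) := by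
  have hc : (A.card : ℝ) ≠ 0 := by
    exact_mod_cast (Finset.card_pos.mpr hne).ne'
  have : ∀ x, UU A x * Real.log (UU A x)
      = if x ∈ A then -((A.card : ℝ)⁻¹ * Real.log (A.card : ℝ)) else 0 := by
    intro x
    unfold UU
    split_ifs
    · rw [Real.log_inv]; ring
    · simp
  rw [Finset.sum_congr rfl (fun x _ => this x), Finset.sum_ite_mem, Finset.univ_inter,
    Finset.sum_const, nsmul_eq_mul]
  field_simp

lemma sum_bb_UU (A : Finset (Finset (Fin n))) :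
    ∑ k, bb A (UU A) k = (((A ×ˢ (Finset.univ : Finset (Fin n))).filter
            (fun p => symmDiff p.1 {p.2} ∉ A)).card : ℝ) / (A.card : ℝ) := by
  unfold bb UU ind
  rw [Finset.card_filter, Nat.cast_sum, Finset.sum_product, Finset.sum_comm (s := A),
    Finset.sum_div]
  apply Finset.sum_congr rfl
  intro k _
  rw [Finset.sum_div]
  have : ∀ x, (if x ∈ A then (A.card : ℝ)⁻¹ else 0)
      * (if x ∈ A ∧ symmDiff x {k} ∉ A then (1:ℝ) else 0)
      = if x ∈ A then ((if symmDiff x {k} ∉ A then (1:ℝ) else 0) / (A.card : ℝ)) else 0 := by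
    intro x
    by_cases hx : x ∈ A
    · by_cases hy : symmDiff x {k} ∈ A
      · simp [hx, hy]
      · simp [hx, hy]
    · simp [hx]
  rw [Finset.sum_congr rfl (fun x _ => this x), Finset.sum_ite_mem, Finset.univ_inter]
  apply Finset.sum_congr rfl
  intro x _
  push_cast
  rfl

/-- energy bounds for the minimiser. -/
lemma min_bounds {A : Finset (Finset (Fin n))} (hne : A.Nonempty)
    (hA : IsUpperSet (A : Set (Finset (Fin n)))) {κ : ℝ} (hκ : 0 < κ) (hκ2 : κ ≤ 1 / 2)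
    {I : ℝ} (hI : ∑ k, bb A (UU A) k ≤ I)
    {ρ : Finset (Fin n) → ℝ} (hρ : ρ ∈ PM A)
    (hmin : ∀ ρ' ∈ PM A, Psi (cc A κ) κ ρ ≤ Psi (cc A κ) κ ρ') :
    ∑ k, bb A ρ k ≤ 2 * I ∧ Ei A ρ ≤ 4 * κ * I := by
  have hcard : 0 < A.card := Finset.card_pos.mpr hne
  have hcard' : (0:ℝ) < (A.card : ℝ) := by exact_mod_cast hcard
  have h1 := hmin _ (UU_mem hne)
  rw [Psi_eq hA κ hρ.1 hρ.2.2, Psi_eq hA κ (UU_nonneg A) (UU_mem hne).2.2, Ei_UU,
    ent_UU hne] at h1
  have hK := K_univ_le hρ.1 hρ.2.1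
  rw [K_univ_eq hρ.2.1, Etot_eq hA hρ.1 hρ.2.2] at hK
  have hlog : Real.log (A.card : ℝ) ≤ (n : ℝ) * Real.log 2 := by
    rw [← Real.log_pow]
    apply Real.log_le_log hcard'
    have : A.card ≤ 2 ^ n := by
      calc A.card ≤ (Finset.univ : Finset (Finset (Fin n))).card := Finset.card_le_univ A
        _ = 2 ^ n := by rw [Finset.card_univ, Fintype.card_finset, Fintype.card_fin]
    exact_mod_cast this
  have hE := Ei_nonneg A hρ.1
  have hB : 0 ≤ ∑ k, bb A ρ k := Finset.sum_nonneg (fun k _ => bb_nonneg A hρ.1 k)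
  set B := ∑ k, bb A ρ k with hBd
  set Z := ∑ x, ρ x * Real.log (ρ x) with hZ
  set e := Ei A ρ with he
  set B0 := ∑ k, bb A (UU A) k with hB0
  have h2 : e + 2 * κ * B ≤ 2 * κ * I + κ * (e + B) := by
    have a1 := mul_le_mul_of_nonneg_left hK hκ.le
    have a2 := mul_le_mul_of_nonneg_left hlog hκ.le
    have a3 := mul_le_mul_of_nonneg_left hI hκ.le
    nlinarith
  have h3 : (1 - κ) * e + κ * B ≤ 2 * κ * I := by linarith
  constructor
  · have : κ * B ≤ κ * (2 * I) := by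
      have : 0 ≤ (1 - κ) * e := mul_nonneg (by linarith) hE
      linarith
    exact le_of_mul_le_mul_left this hκ
  · have a1 : 0 ≤ κ * B := mul_nonneg hκ.le hB
    have a2 : (1/2) * e ≤ (1 - κ) * e := mul_le_mul_of_nonneg_right (by linarith) hE
    linarith

/-- core estimate. -/
theorem core {A : Finset (Finset (Fin n))} (hne : A.Nonempty)
    (hA : IsUpperSet (A : Set (Finset (Fin n)))) {κ : ℝ} (hκ : 0 < κ) (hκ2 : κ ≤ 1 / 2)
    {I : ℝ} (hI : ∑ k, bb A (UU A) k ≤ I) (hn : 0 < n)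
    {δ τ : ℝ} (hτ : 0 < τ) (hτδ : τ ≤ δ) (hκn : κ * Real.log (δ / τ) / 4 ≤ (n : ℝ)) (N : ℕ) :
    ∃ S : Finset (Fin n), (S.card : ℝ) * τ ≤ 2 * I ∧
      (Sᶜ.card : ℝ) * Real.log 2 - Real.log ((A.filter (fun z => S ⊆ z)).card : ℝ)
        ≤ 4 * I * ((((n : ℝ) - κ * Real.log (δ / τ) / 4) / n) ^ N + δ + (N : ℝ) / n)
          + 8 * κ * I := by
  obtain ⟨ρ, hρ, hmin⟩ := exists_min hne (cc A κ) κ
  obtain ⟨hB2, hE4⟩ := min_bounds hne hA hκ hκ2 hI hρ hmin
  have hρ0 := hρ.1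
  have hρ1 := hρ.2.1
  have hρs := hρ.2.2
  have hn' : (0 : ℝ) < n := by exact_mod_cast hn
  have hδ : 0 < δ := lt_of_lt_of_le hτ hτδ
  set B := ∑ k, bb A ρ k with hB
  have hB0 : 0 ≤ B := Finset.sum_nonneg (fun k _ => bb_nonneg A hρ0 k)
  set q : ℝ := ((n : ℝ) - κ * Real.log (δ / τ) / 4) / n with hq
  have hq0 : 0 ≤ q := by
    rw [hq]; exact div_nonneg (by linarith) hn'.le
  set S : Finset (Fin n) := Finset.univ.filter (fun k => τ < bb A ρ k) with hS
  refine ⟨S, ?_, ?_⟩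
  · refine le_trans ?_ hB2
    calc (S.card : ℝ) * τ = ∑ _k ∈ S, τ := by rw [Finset.sum_const, nsmul_eq_mul]
      _ ≤ ∑ k ∈ S, bb A ρ k := Finset.sum_le_sum
          (fun k hk => (Finset.mem_filter.mp hk).2.le)
      _ ≤ ∑ k, bb A ρ k := Finset.sum_le_sum_of_subset_of_nonneg (Finset.subset_univ S)
          (fun k _ _ => bb_nonneg A hρ0 k)
  · refine (card_log_two_sub_log_le_K hρ0 hρ1 hA hρs S).trans ?_
    obtain ⟨s, hs⟩ := exists_list hκ.le hρ hmin hn hτ hτδ hκn Sᶜ (bb A ρ) N (ind A)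
      (fun k _ x => ind_nonneg A k x)
      (fun k hk => by
        have : ¬ (τ < bb A ρ k) := by
          intro h
          exact (Finset.mem_compl.mp hk) (Finset.mem_filter.mpr ⟨Finset.mem_univ k, h⟩)
        exact not_lt.mp this)
    -- rewrite hs
    have e1 : ∀ k, ∑ x, ρ x * ind A k x = bb A ρ k := fun k => rfl
    simp only [e1, nsq_ind] at hs
    rw [← hB, ← hq] at hs
    have hBc : ∑ k ∈ Sᶜ, bb A ρ k ≤ B :=
      Finset.sum_le_sum_of_subset_of_nonneg (Finset.subset_univ _)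
        (fun k _ _ => bb_nonneg A hρ0 k)
    have hBc0 : 0 ≤ ∑ k ∈ Sᶜ, bb A ρ k :=
      Finset.sum_nonneg (fun k _ => bb_nonneg A hρ0 k)
    have hF0 : ∑ k ∈ Sᶜ, (bb A ρ k - δ * bb A ρ k) ≤ B := by
      rw [Finset.sum_sub_distrib, ← Finset.mul_sum]
      have := mul_nonneg hδ.le hBc0
      linarith
    have hG : ∑ k ∈ Sᶜ, nsq ρ (EL ρ s (ind A k)) + (s.map (bb A ρ)).sum
        ≤ B * (q ^ N + δ + (N : ℝ) / n) := by
      rw [Finset.sum_sub_distrib, ← Finset.mul_sum] at hs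
      have a1 := mul_le_mul_of_nonneg_left hF0 (pow_nonneg hq0 N)
      have a2 := mul_le_mul_of_nonneg_left hBc hδ.le
      have a3 : (N : ℝ) * (B / n) = B * ((N : ℝ) / n) := by ring
      rw [a3] at hs
      linarith
    -- R
    set R : Finset (Fin n) := s.toFinset with hR
    have hRsum : ∑ k ∈ R, bb A ρ k ≤ (s.map (bb A ρ)).sum := by
      have : ∀ (l : List (Fin n)), ∑ k ∈ l.toFinset, bb A ρ k ≤ (l.map (bb A ρ)).sum := by
        intro l
        induction l with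
        | nil => simp
        | cons a l ih =>
          rw [List.toFinset_cons, List.map_cons, List.sum_cons]
          calc ∑ k ∈ insert a l.toFinset, bb A ρ k
              ≤ bb A ρ a + ∑ k ∈ l.toFinset, bb A ρ k := by
                by_cases ha : a ∈ l.toFinset
                · rw [Finset.insert_eq_of_mem ha]
                  have := bb_nonneg A hρ0 a
                  linarith
                · rw [Finset.sum_insert ha]
            _ ≤ _ := by linarith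
      exact this s
    -- first stage
    have hst1 : K ρ (∅ ∪ (Sᶜ \ R)) ≤ K ρ ∅ + ∑ k ∈ Sᶜ \ R,
        (2 * nsq ρ (EL ρ s (ind A k)) + 2 * nsq ρ (thi A ρ k)) := by
      apply K_union_le hρ0 ∅ _ _ (Finset.disjoint_empty_left _)
      intro k _ W hW hkW
      rw [ce_chi_eq hρ0 hkW, ce_congr_ae W (fun x hx => theta_eq hA hρs k x hx)]
      have e2 : ce ρ W (fun x => ind A k x + thi A ρ k x)
          = fun x => ce ρ W (ind A k) x + ce ρ W (thi A ρ k) x := funext (fun x => ce_add ρ W _ _ x)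
      rw [e2]
      refine (nsq_add_le hρ0 _ _).trans ?_
      have a1 : nsq ρ (ce ρ W (ind A k)) ≤ nsq ρ (EL ρ s (ind A k)) := by
        rw [← ce_EL hρ0 W s ?_ (ind A k)]
        · exact nsq_ce_le hρ0 W _
        · intro i hi hiW
          have := hW hiW
          rw [Finset.empty_union, Finset.mem_sdiff] at this
          exact this.2 (List.mem_toFinset.mpr hi)
      have a2 := nsq_ce_le hρ0 W (thi A ρ k)
      linarith
    -- second stage
    have hst2 : K ρ ((Sᶜ \ R) ∪ (Sᶜ ∩ R)) ≤ K ρ (Sᶜ \ R) + ∑ k ∈ Sᶜ ∩ R,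
        (bb A ρ k + nsq ρ (thi A ρ k)) := by
      apply K_union_le hρ0 _ _ _ (Finset.disjoint_sdiff_inter _ _)
      intro k _ W _ hkW
      rw [ce_chi_eq hρ0 hkW, ← nsq_theta_eq hA hρs k]
      exact nsq_ce_le hρ0 W _
    rw [Finset.empty_union, K_empty hρ1, zero_add] at hst1
    rw [Finset.sdiff_union_inter] at hst2
    have b1 : ∑ k ∈ Sᶜ \ R, (2 * nsq ρ (EL ρ s (ind A k)) + 2 * nsq ρ (thi A ρ k))
        = 2 * ∑ k ∈ Sᶜ \ R, nsq ρ (EL ρ s (ind A k)) + 2 * ∑ k ∈ Sᶜ \ R, nsq ρ (thi A ρ k) := by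
      rw [Finset.sum_add_distrib, Finset.mul_sum, Finset.mul_sum]
    have b2 : ∑ k ∈ Sᶜ \ R, nsq ρ (EL ρ s (ind A k)) ≤ ∑ k ∈ Sᶜ, nsq ρ (EL ρ s (ind A k)) :=
      Finset.sum_le_sum_of_subset_of_nonneg Finset.sdiff_subset
        (fun k _ _ => nsq_nonneg hρ0 _)
    have b3 : ∑ k ∈ Sᶜ \ R, nsq ρ (thi A ρ k) + ∑ k ∈ Sᶜ ∩ R, nsq ρ (thi A ρ k)
        = ∑ k ∈ Sᶜ, nsq ρ (thi A ρ k) := by
      rw [← Finset.sum_union (Finset.disjoint_sdiff_inter _ _), Finset.sdiff_union_inter]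
    have b4 : ∑ k ∈ Sᶜ, nsq ρ (thi A ρ k) ≤ Ei A ρ :=
      Finset.sum_le_sum_of_subset_of_nonneg (Finset.subset_univ _)
        (fun k _ _ => nsq_nonneg hρ0 _)
    have b5 : ∑ k ∈ Sᶜ ∩ R, bb A ρ k ≤ ∑ k ∈ R, bb A ρ k :=
      Finset.sum_le_sum_of_subset_of_nonneg Finset.inter_subset_right
        (fun k _ _ => bb_nonneg A hρ0 k)
    have b6 : 0 ≤ ∑ k ∈ Sᶜ ∩ R, nsq ρ (thi A ρ k) :=
      Finset.sum_nonneg (fun k _ => nsq_nonneg hρ0 _)
    have b7 : 0 ≤ ∑ k ∈ Sᶜ \ R, nsq ρ (thi A ρ k) :=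
      Finset.sum_nonneg (fun k _ => nsq_nonneg hρ0 _)
    have b8 : 0 ≤ ∑ k ∈ R, bb A ρ k := Finset.sum_nonneg (fun k _ => bb_nonneg A hρ0 k)
    rw [Finset.sum_add_distrib] at hst2
    have hX0 : 0 ≤ q ^ N + δ + (N : ℝ) / n := by positivity
    have hG2 : B * (q ^ N + δ + (N : ℝ) / n) ≤ 2 * I * (q ^ N + δ + (N : ℝ) / n) :=
      mul_le_mul_of_nonneg_right hB2 hX0
    calc K ρ Sᶜ ≤ 2 * (∑ k ∈ Sᶜ, nsq ρ (EL ρ s (ind A k)) + (s.map (bb A ρ)).sum)
          + 2 * Ei A ρ := by linarith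
      _ ≤ 2 * (2 * I * (q ^ N + δ + (N : ℝ) / n)) + 2 * (4 * κ * I) := by linarith
      _ = _ := by ring

end Pool.Agent.Helper69.KK
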