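import Pool.Agent.Helper69.KK.Basic

/-!
Chain rule for the relative entropy of `ρ` with respect to the uniform measure.
-/

set_option autoImplicit false

namespace Pool.Agent.Helper69.KK

open Finset

variable {n : ℕ}

/-- the `±1`-valued `k`-th coordinate. -/
noncomputable def chi (k : Fin n) (x : Finset (Fin n)) : ℝ := if k ∈ x then 1 else -1

/-- relative entropy of the `T`-marginal of `ρ` with respect to the uniform measure. -/
noncomputable def K (ρ : Finset (Fin n) → ℝ) (T : Finset (Fin n)) : ℝ :=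
  ∑ x, ρ x * Real.log (2 ^ T.card * M ρ T x)

/-- `(a-b)²/(a+b)`. -/
noncomputable def g (a b : ℝ) : ℝ := (a - b) ^ 2 / (a + b)

lemma g_nonneg {a b : ℝ} (ha : 0 ≤ a) (hb : 0 ≤ b) : 0 ≤ g a b :=
  div_nonneg (sq_nonneg _) (add_nonneg ha hb)

lemma g_zero_right (a : ℝ) : g a 0 = a := by
  unfold g
  rw [sub_zero, add_zero]
  by_cases h : a = 0
  · simp [h]
  · rw [sq, mul_div_assoc, div_self h, mul_one]

lemma chi_sq (k : Fin n) (x : Finset (Fin n)) : chi k x * chi k x = 1 := by
  unfold chi; split_ifs <;> norm_num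

lemma chi_flip (k : Fin n) (x : Finset (Fin n)) : chi k (symmDiff x {k}) = - chi k x := by
  unfold chi
  by_cases h : k ∈ x
  · have : k ∉ symmDiff x {k} := by
      rw [Finset.mem_symmDiff]; simp [h]
    rw [if_pos h, if_neg this]
  · have : k ∈ symmDiff x {k} := by
      rw [Finset.mem_symmDiff]; simp [h]
    rw [if_neg h, if_pos this]; norm_num

lemma inter_insert_iff {k : Fin n} {T : Finset (Fin n)} (x y : Finset (Fin n)) :
    y ∩ insert k T = x ∩ insert k T ↔ (y ∩ T = x ∩ T ∧ (k ∈ y ↔ k ∈ x)) := by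
  constructor
  · intro h
    constructor
    · ext j
      have := Finset.ext_iff.mp h j
      simp only [Finset.mem_inter, Finset.mem_insert] at this ⊢
      tauto
    · have := Finset.ext_iff.mp h k
      simpa using this
  · rintro ⟨h1, h2⟩
    ext j
    have := Finset.ext_iff.mp h1 j
    simp only [Finset.mem_inter, Finset.mem_insert] at this ⊢
    by_cases hj : j = k
    · subst hj; tauto
    · tauto

lemma two_M_sub {k : Fin n} {T : Finset (Fin n)} (ρ : Finset (Fin n) → ℝ)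
    (x : Finset (Fin n)) :
    2 * M ρ (insert k T) x - M ρ T x
      = chi k x * ∑ y, if y ∩ T = x ∩ T then ρ y * chi k y else 0 := by
  unfold M
  rw [Finset.mul_sum, Finset.mul_sum, ← Finset.sum_sub_distrib]
  apply Finset.sum_congr rfl
  intro y _
  by_cases h : y ∩ T = x ∩ T
  · rw [if_pos h, if_pos h]
    by_cases hk : (k ∈ y ↔ k ∈ x)
    · rw [if_pos ((inter_insert_iff x y).mpr ⟨h, hk⟩)]
      have : chi k y = chi k x := by unfold chi; simp [hk]
      rw [this]
      have h2 := chi_sq k x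
      linear_combination (-ρ y) * h2
    · rw [if_neg (fun h' => hk ((inter_insert_iff x y).mp h').2)]
      have : chi k y = - chi k x := by
        unfold chi
        by_cases h3 : k ∈ x
        · have : k ∉ y := by tauto
          simp [h3, this]
        · have : k ∈ y := by tauto
          simp [h3, this]
      rw [this]
      have h2 := chi_sq k x
      linear_combination (ρ y) * h2
  · rw [if_neg h, if_neg h, if_neg (fun h' => h ((inter_insert_iff x y).mp h').1)]
    ring

lemma K_insert_le {ρ : Finset (Fin n) → ℝ} (hρ : ∀ x, 0 ≤ ρ x) {k : Fin n}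
    {T : Finset (Fin n)} (hk : k ∉ T) :
    K ρ (insert k T) ≤ K ρ T + nsq ρ (ce ρ T (chi k)) := by
  rw [nsq_ce_eq hρ]
  unfold K
  rw [← Finset.sum_add_distrib]
  apply Finset.sum_le_sum
  intro x _
  by_cases hx : ρ x = 0
  · rw [hx]; simp
  have hx' : 0 < ρ x := lt_of_le_of_ne (hρ x) (Ne.symm hx)
  have hM1 : 0 < M ρ T x := lt_of_lt_of_le hx' (le_M hρ T x)
  have hM2 : 0 < M ρ (insert k T) x := lt_of_lt_of_le hx' (le_M hρ _ x)
  rw [← mul_add]
  apply mul_le_mul_of_nonneg_left _ hx'.le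
  have h1 : Real.log (2 ^ (insert k T).card * M ρ (insert k T) x)
      = Real.log (2 ^ T.card * M ρ T x) + Real.log (2 * M ρ (insert k T) x / M ρ T x) := by
    rw [← Real.log_mul (by positivity) (by positivity), Finset.card_insert_of_notMem hk]
    congr 1
    field_simp
    ring
  rw [h1]
  have h2 : Real.log (2 * M ρ (insert k T) x / M ρ T x)
      ≤ 2 * M ρ (insert k T) x / M ρ T x - 1 := Real.log_le_sub_one_of_pos (by positivity)
  have h3 : 2 * M ρ (insert k T) x / M ρ T x - 1 = chi k x * ce ρ T (chi k) x := by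
    unfold ce
    rw [mul_div_assoc', ← two_M_sub]
    field_simp
  linarith

lemma K_union_le {ρ : Finset (Fin n) → ℝ} (hρ : ∀ x, 0 ≤ ρ x) (T : Finset (Fin n))
    (c : Fin n → ℝ) (U : Finset (Fin n)) (hU : Disjoint T U)
    (h : ∀ k ∈ U, ∀ W : Finset (Fin n), W ⊆ T ∪ U → k ∉ W → nsq ρ (ce ρ W (chi k)) ≤ c k) :
    K ρ (T ∪ U) ≤ K ρ T + ∑ k ∈ U, c k := by
  induction U using Finset.induction_on with
  | empty => simp
  | insert a U ha ih =>
    have hd : Disjoint T U := Finset.disjoint_of_subset_right (Finset.subset_insert _ _) hU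
    have haT : a ∉ T := fun h' => (Finset.disjoint_left.mp hU h') (Finset.mem_insert_self _ _)
    have ih' := ih hd (fun k hk W hW hkW => h k (Finset.mem_insert_of_mem hk) W
      (hW.trans (Finset.union_subset_union_right (Finset.subset_insert _ _))) hkW)
    have hna : a ∉ T ∪ U := by
      rw [Finset.mem_union]; tauto
    rw [Finset.union_insert, Finset.sum_insert ha]
    have h1 := K_insert_le hρ hna
    have h2 := h a (Finset.mem_insert_self _ _) (T ∪ U)
      (Finset.union_subset_union_right (Finset.subset_insert _ _)) hna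
    linarith

lemma M_empty (ρ : Finset (Fin n) → ℝ) (x : Finset (Fin n)) : M ρ ∅ x = ∑ y, ρ y := by
  unfold M; simp

lemma K_empty {ρ : Finset (Fin n) → ℝ} (h1 : ∑ x, ρ x = 1) : K ρ ∅ = 0 := by
  unfold K
  simp [M_empty, h1]

lemma M_univ (ρ : Finset (Fin n) → ℝ) (x : Finset (Fin n)) : M ρ univ x = ρ x := by
  unfold M; simp

/-- the function `E_k χ_k`. -/
noncomputable def theta (ρ : Finset (Fin n) → ℝ) (k : Fin n) : Finset (Fin n) → ℝ :=
  E ρ k (chi k)

lemma theta_apply (ρ : Finset (Fin n) → ℝ) (k : Fin n) (x : Finset (Fin n)) :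
    theta ρ k x = chi k x * ((ρ x - ρ (symmDiff x {k})) / (ρ x + ρ (symmDiff x {k}))) := by
  unfold theta
  rw [E_apply, chi_flip]
  ring

lemma ce_chi_eq {ρ : Finset (Fin n) → ℝ} (hρ : ∀ x, 0 ≤ ρ x) {k : Fin n}
    {T : Finset (Fin n)} (hk : k ∉ T) : ce ρ T (chi k) = ce ρ T (theta ρ k) := by
  unfold theta E
  rw [ce_ce_fun hρ]
  intro j hj
  rw [Finset.mem_compl, Finset.mem_singleton]
  rintro rfl
  exact hk hj

lemma nsq_theta {ρ : Finset (Fin n) → ℝ} (hρ : ∀ x, 0 ≤ ρ x) (k : Fin n) :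
    nsq ρ (theta ρ k) = (1/2) * ∑ x, g (ρ x) (ρ (symmDiff x {k})) := by
  have h1 : nsq ρ (theta ρ k) = ∑ x, ρ (symmDiff x {k}) * theta ρ k (symmDiff x {k}) ^ 2 :=
    (sum_flip k (fun x => ρ x * theta ρ k x ^ 2)).symm
  have h2 : nsq ρ (theta ρ k) = (1/2) * ∑ x, (ρ x * theta ρ k x ^ 2
      + ρ (symmDiff x {k}) * theta ρ k (symmDiff x {k}) ^ 2) := by
    rw [Finset.sum_add_distrib, ← h1]
    unfold nsq
    ring
  rw [h2]
  congr 1
  apply Finset.sum_congr rfl
  intro x _
  rw [theta_apply, theta_apply, symmDiff_symmDiff_singleton, chi_flip]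
  have hc := chi_sq k x
  set c := chi k x
  set p := ρ x
  set q := ρ (symmDiff x {k})
  have hp : 0 ≤ p := hρ x
  have hq : 0 ≤ q := hρ _
  unfold g
  have e1 : p * (c * ((p - q) / (p + q))) ^ 2 + q * (-c * ((q - p) / (q + p))) ^ 2
      = (c * c) * ((p + q) * ((p - q) / (p + q)) ^ 2) := by
    have : (q - p) / (q + p) = - ((p - q) / (p + q)) := by
      rw [add_comm q p, ← neg_div]
      congr 1
      ring
    rw [this]
    ring
  rw [e1, hc, one_mul]
  by_cases hpq : p + q = 0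
  · rw [hpq]; simp
  · field_simp

/-- total energy. -/
noncomputable def Etot (ρ : Finset (Fin n) → ℝ) : ℝ :=
  ∑ i : Fin n, (1/2) * ∑ x, g (ρ x) (ρ (symmDiff x {i}))

/-- entropy is at most the total energy. -/
lemma K_univ_le {ρ : Finset (Fin n) → ℝ} (hρ : ∀ x, 0 ≤ ρ x) (h1 : ∑ x, ρ x = 1) :
    K ρ univ ≤ Etot ρ := by
  have h := K_union_le hρ ∅ (fun k => nsq ρ (theta ρ k)) univ (Finset.disjoint_empty_left _) ?_
  · rw [K_empty h1, Finset.empty_union, zero_add] at h
    refine h.trans (le_of_eq ?_)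
    unfold Etot
    exact Finset.sum_congr rfl (fun k _ => nsq_theta hρ k)
  · intro k _ W _ hkW
    rw [ce_chi_eq hρ hkW]
    exact nsq_ce_le hρ _ _

/-- counting the classes that carry mass. -/
lemma sum_div_M_le {ρ : Finset (Fin n) → ℝ} (hρ : ∀ x, 0 ≤ ρ x)
    {A : Finset (Finset (Fin n))} (hA : IsUpperSet (A : Set (Finset (Fin n))))
    (hs : ∀ x, x ∉ A → ρ x = 0) (S : Finset (Fin n)) :
    ∑ x, ρ x / M ρ Sᶜ x ≤ ((A.filter (fun z => S ⊆ z)).card : ℝ) := by
  have h1 : ∑ x, ρ x / M ρ Sᶜ x = ∑ x ∈ A, ρ x / M ρ Sᶜ x := by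
    symm
    apply Finset.sum_subset (Finset.subset_univ A)
    intro x _ hx
    rw [hs x hx, zero_div]
  rw [h1]
  have hmaps : ∀ x ∈ A, x ∪ S ∈ A.filter (fun z => S ⊆ z) := by
    intro x hx
    rw [Finset.mem_filter]
    refine ⟨?_, Finset.subset_union_right⟩
    exact hA (show x ≤ x ∪ S from Finset.subset_union_left) hx
  rw [← Finset.sum_fiberwise_of_maps_to hmaps (fun x => ρ x / M ρ Sᶜ x)]
  rw [Finset.card_eq_sum_ones, Nat.cast_sum]
  apply Finset.sum_le_sum
  intro z _
  have hcl : ∀ x, x ∪ S = z → x ∩ Sᶜ = z ∩ Sᶜ := by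
    intro x hx
    rw [← hx, Finset.union_inter_distrib_right]
    simp
  have h2 : ∑ x ∈ A.filter (fun x => x ∪ S = z), ρ x / M ρ Sᶜ x
      = (∑ x ∈ A.filter (fun x => x ∪ S = z), ρ x) / M ρ Sᶜ z := by
    rw [Finset.sum_div]
    apply Finset.sum_congr rfl
    intro x hx
    rw [M_congr ρ (hcl x (Finset.mem_filter.mp hx).2)]
  rw [h2, Nat.cast_one]
  apply div_le_one_of_le₀ _ (M_nonneg hρ _ _)
  unfold M
  rw [← Finset.sum_filter]
  apply Finset.sum_le_sum_of_subset_of_nonneg
  · intro x hx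
    rw [Finset.mem_filter] at hx ⊢
    exact ⟨Finset.mem_univ x, hcl x hx.2⟩
  · intro x _ _
    exact hρ x

/-- lower bound for the entropy of the marginal in terms of the number of classes. -/
lemma card_log_two_sub_log_le_K {ρ : Finset (Fin n) → ℝ} (hρ : ∀ x, 0 ≤ ρ x)
    (h1 : ∑ x, ρ x = 1)
    {A : Finset (Finset (Fin n))} (hA : IsUpperSet (A : Set (Finset (Fin n))))
    (hs : ∀ x, x ∉ A → ρ x = 0) (S : Finset (Fin n)) :
    (Sᶜ.card : ℝ) * Real.log 2 - Real.log ((A.filter (fun z => S ⊆ z)).card : ℝ) ≤ K ρ Sᶜ := by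
  set N : ℝ := ((A.filter (fun z => S ⊆ z)).card : ℝ) with hN
  have hle := sum_div_M_le hρ hA hs S
  rw [← hN] at hle
  -- positivity of N
  have hNpos : 0 < N := by
    have hex : ∃ x, ρ x ≠ 0 := by
      by_contra hcon
      push Not at hcon
      rw [Finset.sum_eq_zero (fun x _ => hcon x)] at h1
      exact zero_ne_one h1
    obtain ⟨x, hx⟩ := hex
    have hxA : x ∈ A := by
      by_contra hcon
      exact hx (hs x hcon)
    have : x ∪ S ∈ A.filter (fun z => S ⊆ z) := by
      rw [Finset.mem_filter]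
      refine ⟨?_, Finset.subset_union_right⟩
      exact hA (show x ≤ x ∪ S from Finset.subset_union_left) hxA
    rw [hN]
    exact_mod_cast Finset.card_pos.mpr ⟨_, this⟩
  have key : ∀ x, ρ x * ((Sᶜ.card : ℝ) * Real.log 2 - Real.log N)
      ≤ ρ x * Real.log (2 ^ Sᶜ.card * M ρ Sᶜ x) + ρ x / M ρ Sᶜ x / N - ρ x := by
    intro x
    by_cases hx : ρ x = 0
    · rw [hx]; simp
    have hx' : 0 < ρ x := lt_of_le_of_ne (hρ x) (Ne.symm hx)
    have hM1 : 0 < M ρ Sᶜ x := lt_of_lt_of_le hx' (le_M hρ _ x)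
    have hl : Real.log (2 ^ Sᶜ.card * M ρ Sᶜ x)
        = (Sᶜ.card : ℝ) * Real.log 2 + Real.log (M ρ Sᶜ x) := by
      rw [Real.log_mul (by positivity) (by positivity), Real.log_pow]
    have hl2 : Real.log (1 / (M ρ Sᶜ x * N)) ≤ 1 / (M ρ Sᶜ x * N) - 1 :=
      Real.log_le_sub_one_of_pos (by positivity)
    have hl3 : Real.log (1 / (M ρ Sᶜ x * N)) = - Real.log (M ρ Sᶜ x) - Real.log N := by
      rw [Real.log_div one_ne_zero (by positivity), Real.log_one,
        Real.log_mul (by positivity) (by positivity)]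
      ring
    have e : ρ x / M ρ Sᶜ x / N = ρ x * (1 / (M ρ Sᶜ x * N)) := by
      field_simp
    rw [hl, e]
    have : 0 ≤ ρ x * (1 / (M ρ Sᶜ x * N) - 1 - (- Real.log (M ρ Sᶜ x) - Real.log N)) := by
      apply mul_nonneg hx'.le
      linarith
    nlinarith
  have hsum := Finset.sum_le_sum (fun x (_ : x ∈ (Finset.univ : Finset (Finset (Fin n)))) => key x)
  rw [← Finset.sum_mul, h1, one_mul, Finset.sum_sub_distrib, Finset.sum_add_distrib, h1,
    ← Finset.sum_div] at hsum
  have h4 : (∑ x, ρ x / M ρ Sᶜ x) / N ≤ 1 := by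
    rw [div_le_one hNpos]; exact hle
  unfold K
  linarith

end Pool.Agent.Helper69.KK
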