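import Pool.Agent.Helper69.KK.LSI

/-!
A short list of averagings that kills a family of small functions in `L²`.
-/

set_option autoImplicit false

namespace Pool.Agent.Helper69.KK

open Finset

variable {n : ℕ}

/-- iterated averaging. -/
noncomputable def EL (ρ : Finset (Fin n) → ℝ) :
    List (Fin n) → (Finset (Fin n) → ℝ) → (Finset (Fin n) → ℝ)
  | [], w => w
  | i :: s, w => EL ρ s (E ρ i w)

lemma E_nonneg {ρ : Finset (Fin n) → ℝ} (hρ : ∀ x, 0 ≤ ρ x) (i : Fin n)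
    {w : Finset (Fin n) → ℝ} (hw : ∀ x, 0 ≤ w x) (x : Finset (Fin n)) : 0 ≤ E ρ i w x :=
  ce_nonneg hρ _ hw x

lemma sum_E {ρ : Finset (Fin n) → ℝ} (hρ : ∀ x, 0 ≤ ρ x) (i : Fin n)
    (w : Finset (Fin n) → ℝ) : ∑ x, ρ x * E ρ i w x = ∑ x, ρ x * w x := sum_ce hρ _ w

lemma nsq_E_le {ρ : Finset (Fin n) → ℝ} (hρ : ∀ x, 0 ≤ ρ x) (i : Fin n)
    (w : Finset (Fin n) → ℝ) : nsq ρ (E ρ i w) ≤ nsq ρ w := nsq_ce_le hρ _ w

lemma ce_EL {ρ : Finset (Fin n) → ℝ} (hρ : ∀ x, 0 ≤ ρ x) (T : Finset (Fin n)) :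
    ∀ (s : List (Fin n)) (_ : ∀ i ∈ s, i ∉ T) (w : Finset (Fin n) → ℝ),
      ce ρ T (EL ρ s w) = ce ρ T w := by
  intro s
  induction s with
  | nil => intro _ w; rfl
  | cons i s ih =>
    intro h w
    have h1 : ∀ j ∈ s, j ∉ T := fun j hj => h j (List.mem_cons_of_mem _ hj)
    have h2 : i ∉ T := h i List.mem_cons_self
    show ce ρ T (EL ρ s (E ρ i w)) = _
    rw [ih h1]
    unfold E
    apply ce_ce_fun hρ
    intro j hj
    rw [Finset.mem_compl, Finset.mem_singleton]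
    rintro rfl
    exact h2 hj

/-- one-step contraction in mean. -/
lemma step {A : Finset (Finset (Fin n))} {c : Finset (Fin n) → ℝ} {κ : ℝ} (hκ : 0 ≤ κ)
    {ρ : Finset (Fin n) → ℝ} (hρ : ρ ∈ PM A)
    (hmin : ∀ ρ' ∈ PM A, Psi c κ ρ ≤ Psi c κ ρ')
    {δ τ : ℝ} (hτ : 0 < τ) (hτδ : τ ≤ δ)
    {v : Finset (Fin n) → ℝ} (hv : ∀ x, 0 ≤ v x) (hb : ∑ x, ρ x * v x ≤ τ) :
    ∑ i : Fin n, (nsq ρ (E ρ i v) - δ * ∑ x, ρ x * v x)
      ≤ ((n : ℝ) - κ * Real.log (δ / τ) / 4) * (nsq ρ v - δ * ∑ x, ρ x * v x) := by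
  have hρ0 := hρ.1
  set b := ∑ x, ρ x * v x with hbd
  have hb0 : 0 ≤ b := Finset.sum_nonneg (fun x _ => mul_nonneg (hρ0 x) (hv x))
  have hδ : 0 < δ := lt_of_lt_of_le hτ hτδ
  have hΛ : 0 ≤ Real.log (δ / τ) := Real.log_nonneg (by rw [le_div_iff₀ hτ]; linarith)
  rw [Finset.sum_sub_distrib, Finset.sum_const, Finset.card_univ, Fintype.card_fin, nsmul_eq_mul]
  by_cases hcase : nsq ρ v ≤ δ * b
  · have h1 : ∑ i : Fin n, nsq ρ (E ρ i v) ≤ (n : ℝ) * nsq ρ v := by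
      calc ∑ i : Fin n, nsq ρ (E ρ i v) ≤ ∑ _i : Fin n, nsq ρ v :=
            Finset.sum_le_sum (fun i _ => nsq_E_le hρ0 i v)
        _ = _ := by rw [Finset.sum_const, Finset.card_univ, Fintype.card_fin, nsmul_eq_mul]
    have h2 : 0 ≤ κ * Real.log (δ / τ) / 4 * (δ * b - nsq ρ v) := by
      apply mul_nonneg (by positivity) (by linarith)
    nlinarith
  · push Not at hcase
    have hδb : 0 ≤ δ * b := mul_nonneg hδ.le hb0
    have hV : 0 < nsq ρ v := lt_of_le_of_lt hδb hcase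
    have hbpos : 0 < b := by
      rcases lt_or_eq_of_le hb0 with h | h
      · exact h
      · exfalso
        have hz : ∀ x ∈ (Finset.univ : Finset (Finset (Fin n))), ρ x * v x = 0 :=
          (Finset.sum_eq_zero_iff_of_nonneg
            (fun x _ => mul_nonneg (hρ0 x) (hv x))).mp h.symm
        have : nsq ρ v = 0 := by
          unfold nsq
          apply Finset.sum_eq_zero
          intro x hx
          have := hz x hx
          rw [sq, ← mul_assoc, this, zero_mul]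
        linarith
    have h1 := lsi hκ hρ hmin hv hV hbpos
    rw [← hbd] at h1
    have h2 : Real.log (δ / τ) ≤ Real.log (nsq ρ v / b ^ 2) := by
      apply Real.log_le_log (by positivity)
      rw [div_le_div_iff₀ hτ (by positivity)]
      calc δ * b ^ 2 = (δ * b) * b := by ring
        _ ≤ nsq ρ v * τ := mul_le_mul hcase.le hb hb0 hV.le
    have h3 : κ * (nsq ρ v * Real.log (δ / τ)) ≤ 4 * ∑ i, (nsq ρ v - nsq ρ (E ρ i v)) :=
      le_trans (mul_le_mul_of_nonneg_left (mul_le_mul_of_nonneg_left h2 hV.le) hκ) h1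
    rw [Finset.sum_sub_distrib, Finset.sum_const, Finset.card_univ, Fintype.card_fin,
      nsmul_eq_mul] at h3
    have h4 : 0 ≤ κ * Real.log (δ / τ) / 4 * (δ * b) := by positivity
    nlinarith

/-- the averaging argument. -/
lemma exists_list {A : Finset (Finset (Fin n))} {c : Finset (Fin n) → ℝ} {κ : ℝ} (hκ : 0 ≤ κ)
    {ρ : Finset (Fin n) → ℝ} (hρ : ρ ∈ PM A)
    (hmin : ∀ ρ' ∈ PM A, Psi c κ ρ ≤ Psi c κ ρ') (hn : 0 < n)
    {δ τ : ℝ} (hτ : 0 < τ) (hτδ : τ ≤ δ) (hκn : κ * Real.log (δ / τ) / 4 ≤ (n : ℝ))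
    (J : Finset (Fin n)) (b : Fin n → ℝ) (N : ℕ) :
    ∀ (v : Fin n → Finset (Fin n) → ℝ) (_ : ∀ k ∈ J, ∀ x, 0 ≤ v k x)
      (_ : ∀ k ∈ J, ∑ x, ρ x * v k x ≤ τ),
      ∃ s : List (Fin n),
        ∑ k ∈ J, (nsq ρ (EL ρ s (v k)) - δ * ∑ x, ρ x * v k x) + (s.map b).sum
          ≤ (((n : ℝ) - κ * Real.log (δ / τ) / 4) / n) ^ N
              * (∑ k ∈ J, (nsq ρ (v k) - δ * ∑ x, ρ x * v k x))
            + (N : ℝ) * ((∑ i, b i) / n) := by
  have hρ0 := hρ.1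
  have hn' : (0 : ℝ) < n := by exact_mod_cast hn
  set q : ℝ := ((n : ℝ) - κ * Real.log (δ / τ) / 4) / n with hq
  have hq0 : 0 ≤ q := by
    rw [hq]
    apply div_nonneg _ hn'.le
    linarith
  induction N with
  | zero =>
    intro v hv0 hvb
    refine ⟨[], ?_⟩
    simp [EL]
  | succ N ih =>
    intro v hv0 hvb
    -- average over the first index
    have havg : ∑ i : Fin n, (q ^ N * (∑ k ∈ J, (nsq ρ (E ρ i (v k)) - δ * ∑ x, ρ x * v k x))
        + b i)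
        ≤ ∑ _i : Fin n, (q ^ (N + 1) * (∑ k ∈ J, (nsq ρ (v k) - δ * ∑ x, ρ x * v k x))
          + (∑ i, b i) / n) := by
      rw [Finset.sum_add_distrib, ← Finset.mul_sum, Finset.sum_const, Finset.card_univ,
        Fintype.card_fin, nsmul_eq_mul, Finset.sum_comm]
      have h1 : ∑ k ∈ J, ∑ i : Fin n, (nsq ρ (E ρ i (v k)) - δ * ∑ x, ρ x * v k x)
          ≤ (n : ℝ) * q * ∑ k ∈ J, (nsq ρ (v k) - δ * ∑ x, ρ x * v k x) := by
        rw [Finset.mul_sum]
        apply Finset.sum_le_sum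
        intro k hk
        have := step hκ hρ hmin hτ hτδ (hv0 k hk) (hvb k hk)
        have e : (n : ℝ) * q = (n : ℝ) - κ * Real.log (δ / τ) / 4 := by
          rw [hq]; field_simp
        rw [e]
        exact this
      have h2 := mul_le_mul_of_nonneg_left h1 (pow_nonneg hq0 N)
      have h3 : (n : ℝ) * (q ^ (N + 1) * (∑ k ∈ J, (nsq ρ (v k) - δ * ∑ x, ρ x * v k x))
          + (∑ i, b i) / n)
          = q ^ N * ((n : ℝ) * q * ∑ k ∈ J, (nsq ρ (v k) - δ * ∑ x, ρ x * v k x))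
            + ∑ i, b i := by
        rw [mul_add, mul_div_cancel₀ _ hn'.ne', pow_succ]
        ring
      rw [h3]
      linarith
    have hne : (Finset.univ : Finset (Fin n)).Nonempty := ⟨⟨0, hn⟩, Finset.mem_univ _⟩
    obtain ⟨i, _, hi⟩ := Finset.exists_le_of_sum_le hne havg
    obtain ⟨s, hs⟩ := ih (fun k => E ρ i (v k)) (fun k hk x => E_nonneg hρ0 i (hv0 k hk) x)
      (fun k hk => by rw [sum_E hρ0]; exact hvb k hk)
    refine ⟨i :: s, ?_⟩
    have e1 : ∀ k, ∑ x, ρ x * E ρ i (v k) x = ∑ x, ρ x * v k x := fun k => sum_E hρ0 i (v k)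
    simp only [e1] at hs
    rw [List.map_cons, List.sum_cons]
    have e2 : ∀ k, EL ρ (i :: s) (v k) = EL ρ s (E ρ i (v k)) := fun k => rfl
    simp only [e2]
    have e3 : ((N + 1 : ℕ) : ℝ) * ((∑ i, b i) / n)
        = (N : ℝ) * ((∑ i, b i) / n) + (∑ i, b i) / n := by push_cast; ring
    rw [e3]
    linarith

end Pool.Agent.Helper69.KK
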