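import Pool.Agent.Helper69.KK.Minim

/-!
The logarithmic Sobolev inequality satisfied by a minimiser.
-/

set_option autoImplicit false

namespace Pool.Agent.Helper69.KK

open Finset

variable {n : ℕ}

/-- the sum of Bregman terms. -/
noncomputable def Btot (ρ h : Finset (Fin n) → ℝ) : ℝ :=
  ∑ i : Fin n, (1/2) * ∑ x, breg (ρ x) (ρ (symmDiff x {i})) (h x) (h (symmDiff x {i}))

/-- the first-order term. -/
noncomputable def Dtot (c : Finset (Fin n) → ℝ) (κ : ℝ) (ρ h : Finset (Fin n) → ℝ) : ℝ :=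
  (∑ i : Fin n, (1/2) * ∑ x, DD (ρ x) (ρ (symmDiff x {i})) ((h x - 1) * ρ x)
      ((h (symmDiff x {i}) - 1) * ρ (symmDiff x {i})))
    + ∑ x, (h x - 1) * ρ x * c x - κ * ∑ x, (h x - 1) * ρ x * Real.log (ρ x)

lemma Etot_expand {ρ h : Finset (Fin n) → ℝ} (hρ : ∀ x, 0 ≤ ρ x) (s : ℝ)
    (hs : ∀ x, 0 ≤ 1 + s * (h x - 1)) :
    Etot (fun x => (1 + s * (h x - 1)) * ρ x) = Etot ρ
      + s * (∑ i : Fin n, (1/2) * ∑ x, DD (ρ x) (ρ (symmDiff x {i})) ((h x - 1) * ρ x)
      ((h (symmDiff x {i}) - 1) * ρ (symmDiff x {i})))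
      + Btot ρ (fun x => 1 + s * (h x - 1)) := by
  unfold Etot Btot
  rw [Finset.mul_sum, ← Finset.sum_add_distrib, ← Finset.sum_add_distrib]
  apply Finset.sum_congr rfl
  intro i _
  have : s * ((1/2) * ∑ x, DD (ρ x) (ρ (symmDiff x {i})) ((h x - 1) * ρ x)
      ((h (symmDiff x {i}) - 1) * ρ (symmDiff x {i})))
      = (1/2) * ∑ x, s * DD (ρ x) (ρ (symmDiff x {i})) ((h x - 1) * ρ x)
      ((h (symmDiff x {i}) - 1) * ρ (symmDiff x {i})) := by
    rw [← Finset.mul_sum]; ring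
  rw [this, ← mul_add, ← mul_add, ← Finset.sum_add_distrib, ← Finset.sum_add_distrib]
  congr 1
  apply Finset.sum_congr rfl
  intro x _
  rw [g_mul_eq (hρ x) (hρ _) (hs x) (hs _), DD_lin, DD_self (hρ x) (hρ _)]

/-- first order condition (one-sided). -/
lemma Dtot_nonpos {A : Finset (Finset (Fin n))} {c : Finset (Fin n) → ℝ} {κ : ℝ} (hκ : 0 ≤ κ)
    {ρ : Finset (Fin n) → ℝ} (hρ : ρ ∈ PM A)
    (hmin : ∀ ρ' ∈ PM A, Psi c κ ρ ≤ Psi c κ ρ')
    {h : Finset (Fin n) → ℝ} (hh : ∀ x, 0 ≤ h x) (hsum : ∑ x, ρ x * h x = 1) :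
    Dtot c κ ρ h ≤ 0 := by
  obtain ⟨hρ0, hρ1, hρA⟩ := hρ
  -- constant
  set C : ℝ := ∑ i : Fin n, (1/2) * ∑ x, 8 * ρ x ^ 2 * ρ (symmDiff x {i}) ^ 2
      * (h x - h (symmDiff x {i})) ^ 2 / (ρ x + ρ (symmDiff x {i})) ^ 3 with hC
  have hC0 : 0 ≤ C := by
    rw [hC]
    apply Finset.sum_nonneg
    intro i _
    apply mul_nonneg (by norm_num)
    apply Finset.sum_nonneg
    intro x _
    have := hρ0 x
    have := hρ0 (symmDiff x {i})
    positivity
  set H : ℝ := ∑ x, h x with hH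
  have hH0 : 0 ≤ H := Finset.sum_nonneg (fun x _ => hh x)
  have hhH : ∀ x, h x ≤ H := fun x => Finset.single_le_sum (fun y _ => hh y) (Finset.mem_univ x)
  -- main inequality for small ε
  have main : ∀ ε : ℝ, 0 < ε → ε * (H + 1) ≤ 1 / 2 → Dtot c κ ρ h ≤ ε * C := by
    intro ε hε hεH
    have hε2 : ε ≤ 1 / 2 := by nlinarith
    have hs2 : ∀ x, 1 / 2 ≤ 1 + (-ε) * (h x - 1) := by
      intro x
      nlinarith [hhH x, mul_le_mul_of_nonneg_left (hhH x) hε.le]
    have hs0 : ∀ x, 0 ≤ 1 + (-ε) * (h x - 1) := fun x => le_trans (by norm_num) (hs2 x)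
    have hmem : (fun x => (1 + (-ε) * (h x - 1)) * ρ x) ∈ PM A := by
      refine ⟨fun x => mul_nonneg (hs0 x) (hρ0 x), ?_, fun x hx => by simp [hρA x hx]⟩
      have : ∀ x, (1 + (-ε) * (h x - 1)) * ρ x = (1 + ε) * ρ x - ε * (ρ x * h x) := by
        intro x; ring
      rw [Finset.sum_congr rfl (fun x _ => this x), Finset.sum_sub_distrib, ← Finset.mul_sum,
        ← Finset.mul_sum, hρ1, hsum]
      ring
    have hle := hmin _ hmem
    unfold Psi at hle
    rw [Etot_expand hρ0 (-ε) hs0] at hle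
    have hB : Btot ρ (fun x => 1 + (-ε) * (h x - 1)) ≤ ε ^ 2 * C := by
      unfold Btot
      rw [hC, Finset.mul_sum]
      apply Finset.sum_le_sum
      intro i _
      have : ε ^ 2 * ((1/2) * ∑ x, 8 * ρ x ^ 2 * ρ (symmDiff x {i}) ^ 2
        * (h x - h (symmDiff x {i})) ^ 2 / (ρ x + ρ (symmDiff x {i})) ^ 3)
        = (1/2) * ∑ x, ε ^ 2 * (8 * ρ x ^ 2 * ρ (symmDiff x {i}) ^ 2
        * (h x - h (symmDiff x {i})) ^ 2 / (ρ x + ρ (symmDiff x {i})) ^ 3) := by
        rw [← Finset.mul_sum]; ring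
      rw [this]
      apply mul_le_mul_of_nonneg_left _ (by norm_num)
      apply Finset.sum_le_sum
      intro x _
      have := breg_small (hρ0 x) (hρ0 (symmDiff x {i})) (hs2 x) (hs2 (symmDiff x {i}))
      rwa [neg_sq] at this
    have hent : ∑ x, (1 + (-ε) * (h x - 1)) * ρ x * Real.log ((1 + (-ε) * (h x - 1)) * ρ x)
        ≥ ∑ x, ρ x * Real.log (ρ x) - ε * ∑ x, (h x - 1) * ρ x * Real.log (ρ x) := by
      have e0 : ∑ x, (h x - 1) * ρ x = 0 := by
        have : ∀ x, (h x - 1) * ρ x = ρ x * h x - ρ x := by intro x; ring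
        rw [Finset.sum_congr rfl (fun x _ => this x), Finset.sum_sub_distrib, hsum, hρ1, sub_self]
      have e1 : ∑ x, ρ x * Real.log (ρ x) - ε * ∑ x, (h x - 1) * ρ x * Real.log (ρ x)
          = ∑ x, ((1 + (-ε) * (h x - 1)) * ρ x * Real.log (ρ x) + (-ε) * ((h x - 1) * ρ x)) := by
        rw [Finset.sum_add_distrib, ← Finset.mul_sum, e0, mul_zero, add_zero, Finset.mul_sum,
          ← Finset.sum_sub_distrib]
        apply Finset.sum_congr rfl
        intro x _
        ring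
      rw [e1]
      apply Finset.sum_le_sum
      intro x _
      by_cases hx : ρ x = 0
      · rw [hx]; simp
      have hx' : 0 < ρ x := lt_of_le_of_ne (hρ0 x) (Ne.symm hx)
      have hy : 0 < 1 + (-ε) * (h x - 1) := lt_of_lt_of_le (by norm_num) (hs2 x)
      rw [Real.log_mul hy.ne' hx]
      set y := 1 + (-ε) * (h x - 1) with hyd
      have hl : y - 1 ≤ y * Real.log y := by
        have := Real.one_sub_inv_le_log_of_pos hy
        have h2 := mul_le_mul_of_nonneg_left this hy.le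
        have h3 : y * (1 - y⁻¹) = y - 1 := by field_simp
        linarith
      have e3 : (-ε) * ((h x - 1) * ρ x) = ρ x * (y - 1) := by rw [hyd]; ring
      rw [e3]
      have := mul_le_mul_of_nonneg_left hl hx'.le
      nlinarith
    have hlin : ∑ x, (1 + (-ε) * (h x - 1)) * ρ x * c x
        = ∑ x, ρ x * c x - ε * ∑ x, (h x - 1) * ρ x * c x := by
      rw [Finset.mul_sum, ← Finset.sum_sub_distrib]
      apply Finset.sum_congr rfl
      intro x _
      ring
    rw [hlin] at hle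
    have hent2 := mul_le_mul_of_nonneg_left hent hκ
    have hfin : ε * Dtot c κ ρ h ≤ ε * (ε * C) := by
      unfold Dtot
      nlinarith
    exact le_of_mul_le_mul_left hfin hε
  by_contra hcon
  push Not at hcon
  set D := Dtot c κ ρ h with hD
  -- choose ε
  set ε : ℝ := min (1 / (2 * (H + 1))) (D / (2 * (C + 1))) with hεdef
  have hε : 0 < ε := lt_min (by positivity) (by positivity)
  have h1 : ε * (H + 1) ≤ 1 / 2 := by
    have : ε ≤ 1 / (2 * (H + 1)) := min_le_left _ _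
    calc ε * (H + 1) ≤ 1 / (2 * (H + 1)) * (H + 1) :=
          mul_le_mul_of_nonneg_right this (by linarith)
      _ = 1 / 2 := by field_simp
  have h2 : ε * C < D := by
    have h3 : ε ≤ D / (2 * (C + 1)) := min_le_right _ _
    calc ε * C ≤ D / (2 * (C + 1)) * C := mul_le_mul_of_nonneg_right h3 hC0
      _ < D := by
        rw [div_mul_eq_mul_div, div_lt_iff₀ (by positivity)]
        nlinarith
  have := main ε hε h1
  linarith

/-- entropy is controlled by the Bregman terms. -/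
lemma ent_le_Btot {A : Finset (Finset (Fin n))} {c : Finset (Fin n) → ℝ} {κ : ℝ} (hκ : 0 ≤ κ)
    {ρ : Finset (Fin n) → ℝ} (hρ : ρ ∈ PM A)
    (hmin : ∀ ρ' ∈ PM A, Psi c κ ρ ≤ Psi c κ ρ')
    {h : Finset (Fin n) → ℝ} (hh : ∀ x, 0 ≤ h x) (hsum : ∑ x, ρ x * h x = 1) :
    κ * ∑ x, ρ x * (h x * Real.log (h x)) ≤ Btot ρ h := by
  have hD := Dtot_nonpos hκ hρ hmin hh hsum
  obtain ⟨hρ0, hρ1, hρA⟩ := hρ
  have hs0 : ∀ x, 0 ≤ 1 + 1 * (h x - 1) := by
    intro x
    have := hh x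
    linarith
  have hmem : (fun x => (1 + 1 * (h x - 1)) * ρ x) ∈ PM A := by
    refine ⟨fun x => mul_nonneg (hs0 x) (hρ0 x), ?_, fun x hx => by simp [hρA x hx]⟩
    refine Eq.trans ?_ hsum
    apply Finset.sum_congr rfl
    intro x _
    ring
  have hle := hmin _ hmem
  unfold Psi at hle
  rw [Etot_expand hρ0 1 hs0] at hle
  have hB : Btot ρ (fun x => 1 + 1 * (h x - 1)) = Btot ρ h := by
    congr 1
    funext x
    ring
  rw [hB] at hle
  have hent : ∑ x, (1 + 1 * (h x - 1)) * ρ x * Real.log ((1 + 1 * (h x - 1)) * ρ x)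
      = ∑ x, ρ x * Real.log (ρ x) + ∑ x, (h x - 1) * ρ x * Real.log (ρ x)
        + ∑ x, ρ x * (h x * Real.log (h x)) := by
    rw [← Finset.sum_add_distrib, ← Finset.sum_add_distrib]
    apply Finset.sum_congr rfl
    intro x _
    have e : 1 + 1 * (h x - 1) = h x := by ring
    rw [e]
    by_cases hx : ρ x = 0
    · rw [hx]; simp
    by_cases hy : h x = 0
    · rw [hy]; simp
    rw [Real.log_mul hy hx]
    ring
  have hlin : ∑ x, (1 + 1 * (h x - 1)) * ρ x * c x
      = ∑ x, ρ x * c x + ∑ x, (h x - 1) * ρ x * c x := by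
    rw [← Finset.sum_add_distrib]
    apply Finset.sum_congr rfl
    intro x _
    ring
  rw [hent, hlin] at hle
  unfold Dtot at hD
  nlinarith

/-- The logarithmic Sobolev inequality in the form used below. -/
lemma lsi {A : Finset (Finset (Fin n))} {c : Finset (Fin n) → ℝ} {κ : ℝ} (hκ : 0 ≤ κ)
    {ρ : Finset (Fin n) → ℝ} (hρ : ρ ∈ PM A)
    (hmin : ∀ ρ' ∈ PM A, Psi c κ ρ ≤ Psi c κ ρ')
    {v : Finset (Fin n) → ℝ} (hv : ∀ x, 0 ≤ v x) (hV : 0 < nsq ρ v)
    (hb : 0 < ∑ x, ρ x * v x) :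
    κ * (nsq ρ v * Real.log (nsq ρ v / (∑ x, ρ x * v x) ^ 2))
      ≤ 4 * ∑ i, (nsq ρ v - nsq ρ (E ρ i v)) := by
  set V := nsq ρ v with hVd
  set b := ∑ x, ρ x * v x with hbd
  have hρ0 := hρ.1
  have hsum : ∑ x, ρ x * (v x ^ 2 / V) = 1 := by
    have : ∀ x, ρ x * (v x ^ 2 / V) = (ρ x * v x ^ 2) / V := by intro x; ring
    rw [Finset.sum_congr rfl (fun x _ => this x), ← Finset.sum_div]
    rw [div_eq_one_iff_eq hV.ne', hVd]
    rfl
  have h1 := ent_le_Btot hκ hρ hmin (h := fun x => v x ^ 2 / V)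
    (fun x => div_nonneg (sq_nonneg _) hV.le) hsum
  -- upper bound of Btot
  have h2 : Btot ρ (fun x => v x ^ 2 / V) ≤ 4 * (∑ i, (V - nsq ρ (E ρ i v))) / V := by
    unfold Btot
    rw [mul_comm (4:ℝ), mul_div_assoc, Finset.sum_mul]
    apply Finset.sum_le_sum
    intro i _
    rw [hVd, nsq_sub_nsq_E hρ0 i v, ← hVd]
    rw [mul_assoc, Finset.sum_mul]
    apply mul_le_mul_of_nonneg_left _ (by norm_num)
    apply Finset.sum_le_sum
    intro x _
    have := breg_le (v1 := v x) (v2 := v (symmDiff x {i})) (hρ0 x) (hρ0 (symmDiff x {i})) hV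
    refine this.trans (le_of_eq ?_)
    ring
  -- lower bound of entropy
  have h3 : Real.log (V / b ^ 2) ≤ ∑ x, ρ x * (v x ^ 2 / V * Real.log (v x ^ 2 / V)) := by
    -- pointwise: with w = v/√V, β = b/√V
    have key : ∀ x, ρ x * (v x ^ 2 / V) * Real.log (V / b ^ 2)
        + 2 * (ρ x * (v x ^ 2 / V) - ρ x * v x / b)
        ≤ ρ x * (v x ^ 2 / V * Real.log (v x ^ 2 / V)) := by
      intro x
      by_cases hx : v x = 0
      · rw [hx]; simp
      have hx' : 0 < v x := lt_of_le_of_ne (hv x) (Ne.symm hx)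
      have hl : Real.log (V / (b * v x)) ≤ V / (b * v x) - 1 :=
        Real.log_le_sub_one_of_pos (by positivity)
      have e1 : Real.log (V / b ^ 2) = Real.log V - 2 * Real.log b := by
        rw [Real.log_div hV.ne' (by positivity), Real.log_pow]; push_cast; ring
      have e2 : Real.log (v x ^ 2 / V) = 2 * Real.log (v x) - Real.log V := by
        rw [Real.log_div (by positivity) hV.ne', Real.log_pow]; push_cast; ring
      have e3 : Real.log (V / (b * v x)) = Real.log V - Real.log b - Real.log (v x) := by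
        rw [Real.log_div hV.ne' (by positivity), Real.log_mul hb.ne' hx'.ne']; ring
      rw [e1, e2]
      rw [e3] at hl
      have hw : 0 ≤ ρ x * (v x ^ 2 / V) := mul_nonneg (hρ0 x) (by positivity)
      have h4 := mul_le_mul_of_nonneg_left hl hw
      have e5 : ρ x * (v x ^ 2 / V) * (V / (b * v x) - 1)
          = ρ x * v x / b - ρ x * (v x ^ 2 / V) := by
        field_simp
      rw [e5] at h4
      nlinarith
    have hS := Finset.sum_le_sum
      (fun x (_ : x ∈ (Finset.univ : Finset (Finset (Fin n)))) => key x)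
    rw [Finset.sum_add_distrib, ← Finset.sum_mul, hsum, ← Finset.mul_sum, Finset.sum_sub_distrib,
      hsum, ← Finset.sum_div, ← hbd, div_self hb.ne'] at hS
    linarith
  have h4 : κ * Real.log (V / b ^ 2) ≤ 4 * (∑ i, (V - nsq ρ (E ρ i v))) / V :=
    (mul_le_mul_of_nonneg_left h3 hκ).trans (h1.trans h2)
  rw [le_div_iff₀ hV] at h4
  linarith

end Pool.Agent.Helper69.KK
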