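import Pool.Agent.Helper69.KK.Entropy

/-!
Minimisers of energy + linear - κ * entropy over the probability measures on `A`
satisfy a logarithmic Sobolev inequality.
-/

set_option autoImplicit false

namespace Pool.Agent.Helper69.KK

open Finset

variable {n : ℕ}

/-- the functional. -/
noncomputable def Psi (c : Finset (Fin n) → ℝ) (κ : ℝ) (ρ : Finset (Fin n) → ℝ) : ℝ :=
  Etot ρ + ∑ x, ρ x * c x - κ * ∑ x, ρ x * Real.log (ρ x)

/-- probability weights supported on `A`. -/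
def PM (A : Finset (Finset (Fin n))) : Set (Finset (Fin n) → ℝ) :=
  {ρ | (∀ x, 0 ≤ ρ x) ∧ ∑ x, ρ x = 1 ∧ ∀ x, x ∉ A → ρ x = 0}

lemma isCompact_PM (A : Finset (Finset (Fin n))) : IsCompact (PM A) := by
  have h : PM A = stdSimplex ℝ (Finset (Fin n)) ∩ {ρ | ∀ x, x ∉ A → ρ x = 0} := by
    ext ρ
    constructor
    · rintro ⟨h1, h2, h3⟩
      exact ⟨⟨h1, h2⟩, h3⟩
    · rintro ⟨⟨h1, h2⟩, h3⟩
      exact ⟨h1, h2, h3⟩
  rw [h]
  apply (isCompact_stdSimplex ℝ _).inter_right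
  have : {ρ : Finset (Fin n) → ℝ | ∀ x, x ∉ A → ρ x = 0}
      = ⋂ x, ⋂ (_ : x ∉ A), {ρ | ρ x = 0} := by
    ext ρ; simp
  rw [this]
  apply isClosed_iInter
  intro x
  apply isClosed_iInter
  intro _
  exact isClosed_eq (continuous_apply x) continuous_const

lemma g_le_add {a b : ℝ} (ha : 0 ≤ a) (hb : 0 ≤ b) : g a b ≤ a + b := by
  unfold g
  apply div_le_of_le_mul₀ (add_nonneg ha hb) (add_nonneg ha hb)
  nlinarith [mul_nonneg ha hb]

lemma continuousOn_g : ContinuousOn (fun p : ℝ × ℝ => g p.1 p.2) {p | 0 ≤ p.1 ∧ 0 ≤ p.2} := by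
  rintro ⟨a, b⟩ ⟨ha, hb⟩
  simp only at ha hb
  by_cases h : a + b = 0
  · have ha0 : a = 0 := by linarith
    have hb0 : b = 0 := by linarith
    subst ha0 hb0
    unfold ContinuousWithinAt
    have h0 : g (0:ℝ) 0 = 0 := by unfold g; simp
    simp only [h0]
    have hlim : Filter.Tendsto (fun p : ℝ × ℝ => p.1 + p.2)
        (nhdsWithin (0, 0) {p | 0 ≤ p.1 ∧ 0 ≤ p.2}) (nhds 0) := by
      have : ContinuousWithinAt (fun p : ℝ × ℝ => p.1 + p.2) {p | 0 ≤ p.1 ∧ 0 ≤ p.2} (0, 0) :=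
        (continuous_fst.add continuous_snd).continuousWithinAt
      unfold ContinuousWithinAt at this
      simpa using this
    apply tendsto_of_tendsto_of_tendsto_of_le_of_le' tendsto_const_nhds hlim
    · filter_upwards [self_mem_nhdsWithin] with p hp
      exact g_nonneg hp.1 hp.2
    · filter_upwards [self_mem_nhdsWithin] with p hp
      exact g_le_add hp.1 hp.2
  · apply ContinuousAt.continuousWithinAt
    unfold g
    apply ContinuousAt.div
    · fun_prop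
    · fun_prop
    · exact h

lemma continuousOn_Psi (c : Finset (Fin n) → ℝ) (κ : ℝ) :
    ContinuousOn (Psi c κ) {ρ : Finset (Fin n) → ℝ | ∀ x, 0 ≤ ρ x} := by
  unfold Psi Etot
  apply ContinuousOn.sub
  · apply ContinuousOn.add
    · apply continuousOn_finsetSum
      intro i _
      apply ContinuousOn.mul continuousOn_const
      apply continuousOn_finsetSum
      intro x _
      have h1 : ContinuousOn (fun ρ : Finset (Fin n) → ℝ => (ρ x, ρ (symmDiff x {i})))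
          {ρ : Finset (Fin n) → ℝ | ∀ x, 0 ≤ ρ x} := by
        fun_prop
      exact continuousOn_g.comp h1 (fun ρ hρ => ⟨hρ x, hρ _⟩)
    · fun_prop
  · apply ContinuousOn.mul continuousOn_const
    apply Continuous.continuousOn
    apply continuous_finsetSum
    intro x _
    exact Real.continuous_mul_log.comp (continuous_apply x)

lemma exists_min {A : Finset (Finset (Fin n))} (hA : A.Nonempty)
    (c : Finset (Fin n) → ℝ) (κ : ℝ) :
    ∃ ρ ∈ PM A, ∀ ρ' ∈ PM A, Psi c κ ρ ≤ Psi c κ ρ' := by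
  have hne : (PM A).Nonempty := by
    obtain ⟨a, ha⟩ := hA
    refine ⟨fun x => if x = a then 1 else 0, ?_, ?_, ?_⟩
    · intro x; dsimp only; split_ifs <;> norm_num
    · simp
    · intro x hx
      have : x ≠ a := fun h => hx (h ▸ ha)
      simp [this]
  obtain ⟨ρ, hρ, hmin⟩ := (isCompact_PM A).exists_isMinOn hne
    ((continuousOn_Psi c κ).mono (fun ρ hρ => hρ.1))
  exact ⟨ρ, hρ, fun ρ' hρ' => hmin hρ'⟩

/-! ### exact expansion of `g` -/

/-- gradient pairing. -/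
noncomputable def DD (p q a b : ℝ) : ℝ :=
  a * (1 - 4 * q ^ 2 / (p + q) ^ 2) + b * (1 - 4 * p ^ 2 / (p + q) ^ 2)

/-- Bregman remainder. -/
noncomputable def breg (p q h1 h2 : ℝ) : ℝ :=
  4 * p ^ 2 * q ^ 2 * (h1 - h2) ^ 2 / ((p + q) ^ 2 * (h1 * p + h2 * q))

lemma g_mul_eq {p q h1 h2 : ℝ} (hp : 0 ≤ p) (hq : 0 ≤ q) (h1' : 0 ≤ h1) (h2' : 0 ≤ h2) :
    g (h1 * p) (h2 * q) = DD p q (h1 * p) (h2 * q) + breg p q h1 h2 := by
  unfold g DD breg
  by_cases hpq : p + q = 0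
  · have hp0 : p = 0 := by linarith
    have hq0 : q = 0 := by linarith
    subst hp0 hq0
    simp
  by_cases hs : h1 * p + h2 * q = 0
  · have e1 : h1 * p = 0 := by nlinarith [mul_nonneg h1' hp, mul_nonneg h2' hq]
    have e2 : h2 * q = 0 := by nlinarith [mul_nonneg h1' hp, mul_nonneg h2' hq]
    rw [hs, e1, e2]
    simp
  · field_simp
    ring

lemma DD_lin (p q h1 h2 s : ℝ) :
    DD p q ((1 + s * (h1 - 1)) * p) ((1 + s * (h2 - 1)) * q)
      = DD p q p q + s * DD p q ((h1 - 1) * p) ((h2 - 1) * q) := by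
  unfold DD
  ring

lemma DD_self {p q : ℝ} (hp : 0 ≤ p) (hq : 0 ≤ q) : DD p q p q = g p q := by
  have h := g_mul_eq hp hq zero_le_one zero_le_one
  rw [one_mul, one_mul] at h
  rw [h]
  unfold breg
  simp

lemma breg_small {p q h1 h2 s : ℝ} (hp : 0 ≤ p) (hq : 0 ≤ q)
    (a1 : 1 / 2 ≤ 1 + s * (h1 - 1)) (a2 : 1 / 2 ≤ 1 + s * (h2 - 1)) :
    breg p q (1 + s * (h1 - 1)) (1 + s * (h2 - 1))
      ≤ s ^ 2 * (8 * p ^ 2 * q ^ 2 * (h1 - h2) ^ 2 / (p + q) ^ 3) := by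
  unfold breg
  by_cases hpq : p + q = 0
  · have hp0 : p = 0 := by linarith
    have hq0 : q = 0 := by linarith
    subst hp0 hq0
    simp
  have hpq' : 0 < p + q := lt_of_le_of_ne (add_nonneg hp hq) (Ne.symm hpq)
  have hd : (p + q) / 2 ≤ (1 + s * (h1 - 1)) * p + (1 + s * (h2 - 1)) * q := by
    nlinarith [mul_le_mul_of_nonneg_right a1 hp, mul_le_mul_of_nonneg_right a2 hq]
  have e : 4 * p ^ 2 * q ^ 2 * ((1 + s * (h1 - 1)) - (1 + s * (h2 - 1))) ^ 2
      = 4 * p ^ 2 * q ^ 2 * (s ^ 2 * (h1 - h2) ^ 2) := by ring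
  rw [e]
  have e2 : s ^ 2 * (8 * p ^ 2 * q ^ 2 * (h1 - h2) ^ 2 / (p + q) ^ 3)
      = 4 * p ^ 2 * q ^ 2 * (s ^ 2 * (h1 - h2) ^ 2) / ((p + q) ^ 2 * ((p + q) / 2)) := by
    field_simp
    ring
  rw [e2]
  apply div_le_div_of_nonneg_left (by positivity) (by positivity)
  exact mul_le_mul_of_nonneg_left hd (by positivity)

lemma breg_le {p q v1 v2 V : ℝ} (hp : 0 ≤ p) (hq : 0 ≤ q) (hV : 0 < V) :
    breg p q (v1 ^ 2 / V) (v2 ^ 2 / V) ≤ 4 * (p * q / (p + q) * (v1 - v2) ^ 2) / V := by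
  unfold breg
  by_cases hpq : p + q = 0
  · have hp0 : p = 0 := by linarith
    have hq0 : q = 0 := by linarith
    subst hp0 hq0
    simp
  have hpq' : 0 < p + q := lt_of_le_of_ne (add_nonneg hp hq) (Ne.symm hpq)
  have hDnn : 0 ≤ v1 ^ 2 * p + v2 ^ 2 * q := by positivity
  by_cases hD : v1 ^ 2 * p + v2 ^ 2 * q = 0
  · have e : v1 ^ 2 / V * p + v2 ^ 2 / V * q = 0 := by
      have : v1 ^ 2 / V * p + v2 ^ 2 / V * q = (v1 ^ 2 * p + v2 ^ 2 * q) / V := by ring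
      rw [this, hD, zero_div]
    rw [e, mul_zero, div_zero]
    positivity
  have hD' : 0 < v1 ^ 2 * p + v2 ^ 2 * q := lt_of_le_of_ne hDnn (Ne.symm hD)
  have e1 : 4 * p ^ 2 * q ^ 2 * (v1 ^ 2 / V - v2 ^ 2 / V) ^ 2
      / ((p + q) ^ 2 * (v1 ^ 2 / V * p + v2 ^ 2 / V * q))
      = (4 * (p * q / (p + q) * (v1 - v2) ^ 2) / V)
        * (p * q * (v1 + v2) ^ 2 / ((p + q) * (v1 ^ 2 * p + v2 ^ 2 * q))) := by
    have : v1 ^ 2 / V * p + v2 ^ 2 / V * q = (v1 ^ 2 * p + v2 ^ 2 * q) / V := by ring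
    rw [this]
    field_simp
    ring
  rw [e1]
  apply mul_le_of_le_one_right (by positivity)
  rw [div_le_one (by positivity)]
  nlinarith [sq_nonneg (p * v1 - q * v2)]

end Pool.Agent.Helper69.KK
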